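import Pool.Agent.ZTD.Defs

/-!
# MP_9ce8c8_lc: zero tests for the permanent by determinants. Leading coefficients of cofactors.
-/

set_option autoImplicit false

namespace Pool.Agent.ZTD

open MvPolynomial Finset
open Pool.Agent.H53.AC (SpecializesTo)
open Pool.Agent.H61.BD (DetLE BorderDetLE)

universe u v w

/-- `g` is the leading coefficient, up to a scalar, of `D` at `ε = 0`. -/
def Lead {k : Type u} [Field k] {σ : Type v} (D : MvPolynomial σ (RatFunc k))
    (g : MvPolynomial σ k) : Prop :=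
  g ≠ 0 ∧ ∃ c : RatFunc k, c ≠ 0 ∧ ∀ m, SpecializesTo (c * coeff m D) (coeff m g)

private theorem bc_spec_zero {k : Type u} [Field k] {a : k}
    (h : SpecializesTo (0 : RatFunc k) a) : a = 0 := by
  obtain ⟨P, Q, hQ, h1, h2⟩ := h
  have hQ0 : algebraMap (Polynomial k) (RatFunc k) Q ≠ 0 := by
    rw [Ne, map_eq_zero_iff _ (RatFunc.algebraMap_injective k)]
    rintro rfl
    simp at hQ
  have h3 : algebraMap (Polynomial k) (RatFunc k) P = 0 := by
    rcases div_eq_zero_iff.1 h1.symm with h | h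
    · exact h
    · exact absurd h hQ0
  rw [map_eq_zero_iff _ (RatFunc.algebraMap_injective k)] at h3
  rw [h2, h3, Polynomial.eval_zero, zero_div]

private theorem bc_spec_alg {k : Type u} [Field k] (P : Polynomial k) :
    SpecializesTo (algebraMap (Polynomial k) (RatFunc k) P) (P.eval 0) :=
  ⟨P, 1, by simp, by simp, by simp⟩

private theorem bc_lead_ne {k : Type u} [Field k] {σ : Type v}
    {D : MvPolynomial σ (RatFunc k)} {g : MvPolynomial σ k} (h : Lead D g) : D ≠ 0 := by
  rintro rfl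
  obtain ⟨hg, c, -, hc⟩ := h
  apply hg
  ext m
  have h1 := hc m
  rw [coeff_zero, mul_zero] at h1
  rw [bc_spec_zero h1, coeff_zero]

private theorem bc_exists_lead {k : Type u} [Field k] {σ : Type v}
    (D : MvPolynomial σ (RatFunc k)) (hD : D ≠ 0) : ∃ g, Lead D g := by
  classical
  obtain ⟨b, hb⟩ := IsLocalization.exist_integer_multiples_of_finset
    (nonZeroDivisors (Polynomial k)) (D.support.image fun m => coeff m D)
  have hb' : ∀ m, ∃ r : Polynomial k, algebraMap (Polynomial k) (RatFunc k) r =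
      algebraMap (Polynomial k) (RatFunc k) (b : Polynomial k) * coeff m D := by
    intro m
    by_cases hm : m ∈ D.support
    · obtain ⟨r, hr⟩ := hb (coeff m D) (Finset.mem_image_of_mem _ hm)
      exact ⟨r, by rw [hr, Algebra.smul_def]⟩
    · refine ⟨0, ?_⟩
      rw [MvPolynomial.notMem_support_iff.1 hm, mul_zero, map_zero]
  choose r hr using hb'
  have hb0 : algebraMap (Polynomial k) (RatFunc k) (b : Polynomial k) ≠ 0 := by
    rw [Ne, map_eq_zero_iff _ (RatFunc.algebraMap_injective k)]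
    exact nonZeroDivisors.ne_zero b.2
  set Φ' : MvPolynomial σ (Polynomial k) := ∑ m ∈ D.support, monomial m (r m) with hΦ'
  have hcoeff : ∀ m, algebraMap (Polynomial k) (RatFunc k) (coeff m Φ') =
      algebraMap (Polynomial k) (RatFunc k) (b : Polynomial k) * coeff m D := by
    intro m
    rw [hΦ', coeff_sum]
    simp only [coeff_monomial]
    by_cases hm : m ∈ D.support
    · rw [Finset.sum_eq_single m, if_pos rfl, hr]
      · intro m' _ hne
        rw [if_neg hne]
      · intro h
        exact absurd hm h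
    · rw [Finset.sum_eq_zero, MvPolynomial.notMem_support_iff.1 hm, mul_zero, map_zero]
      intro m' hm'
      rw [if_neg]
      rintro rfl
      exact hm hm'
  have hΦ0 : Φ' ≠ 0 := by
    intro h0
    apply hD
    ext m
    have h1 := hcoeff m
    rw [h0, coeff_zero, map_zero] at h1
    rw [coeff_zero]
    exact (mul_eq_zero.1 h1.symm).resolve_left hb0
  have hprime : Prime (C Polynomial.X : MvPolynomial σ (Polynomial k)) :=
    (MvPolynomial.prime_C_iff (σ := σ)).2 Polynomial.prime_X
  obtain ⟨v, Φ, hΦ, hv⟩ := WfDvdMonoid.max_power_factor hΦ0 hprime.irreducible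
  have hq : ∀ r' : Polynomial k, Polynomial.evalRingHom (0 : k) r' = 0 ↔ Polynomial.X ∣ r' := by
    intro r'
    rw [Polynomial.X_dvd_iff, Polynomial.coeff_zero_eq_eval_zero, Polynomial.coe_evalRingHom]
  have hX0 : algebraMap (Polynomial k) (RatFunc k) Polynomial.X ≠ 0 := by
    rw [Ne, map_eq_zero_iff _ (RatFunc.algebraMap_injective k)]
    exact Polynomial.X_ne_zero
  refine ⟨map (Polynomial.evalRingHom (0 : k)) Φ, ?_,
    algebraMap (Polynomial k) (RatFunc k) (b : Polynomial k) /
      algebraMap (Polynomial k) (RatFunc k) Polynomial.X ^ v,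
    div_ne_zero hb0 (pow_ne_zero _ hX0), ?_⟩
  · intro h0
    exact hΦ ((C_dvd_iff_map_hom_eq_zero _ _ hq Φ).2 h0)
  · intro m
    have h1 := hcoeff m
    rw [hv, ← C_pow, coeff_C_mul, map_mul, map_pow] at h1
    have h2 : algebraMap (Polynomial k) (RatFunc k) (b : Polynomial k) /
        algebraMap (Polynomial k) (RatFunc k) Polynomial.X ^ v * coeff m D =
        algebraMap (Polynomial k) (RatFunc k) (coeff m Φ) := by
      rw [div_mul_eq_mul_div, ← h1, mul_div_cancel_left₀ _ (pow_ne_zero _ hX0)]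
    rw [h2, coeff_map, Polynomial.coe_evalRingHom]
    exact bc_spec_alg _

private theorem bc_lead_sign {k : Type u} [Field k] {σ : Type v}
    {D : MvPolynomial σ (RatFunc k)} {g : MvPolynomial σ k} (h : Lead D g) (n : ℕ) :
    Lead ((-1) ^ n * D) g := by
  obtain ⟨hg, c, hc0, hc⟩ := h
  refine ⟨hg, (-1) ^ n * c, mul_ne_zero (pow_ne_zero _ (neg_ne_zero.2 one_ne_zero)) hc0, ?_⟩
  intro m
  have h1 : ((-1) ^ n * D : MvPolynomial σ (RatFunc k)) = C ((-1) ^ n) * D := by
    rw [C_pow, C_neg, C_1]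
  have h2 : ((-1 : RatFunc k) ^ n) * (-1) ^ n = 1 := by
    rw [← mul_pow, neg_one_mul, neg_neg, one_pow]
  have h3 : (-1) ^ n * c * coeff m ((-1) ^ n * D : MvPolynomial σ (RatFunc k)) =
      c * coeff m D := by
    rw [h1, coeff_C_mul]
    calc (-1) ^ n * c * ((-1) ^ n * coeff m D) = ((-1) ^ n * (-1) ^ n) * (c * coeff m D) := by ring
      _ = c * coeff m D := by rw [h2, one_mul]
  rw [h3]
  exact hc m

private theorem bc_main {k : Type u} [Field k] {σ : Type v} (w : MvPolynomial σ k)
    (hw : ¬ IsUnit w) : ∀ (s : ℕ) (A : Matrix (Fin s) (Fin s) (MvPolynomial σ (RatFunc k)))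
    (g : MvPolynomial σ k), (∀ i j, (A i j).totalDegree ≤ 1) → Lead A.det g → w ∣ g →
    ∃ (s' : ℕ) (A : Matrix (Fin s') (Fin s') (MvPolynomial σ (RatFunc k))) (i j : Fin s')
      (g r : MvPolynomial σ k), s' ≤ s ∧ (∀ i j, (A i j).totalDegree ≤ 1) ∧ Lead A.det g ∧
      w ∣ g ∧ Lead (A.adjugate i j) r ∧ ¬ w ∣ r := by
  classical
  intro s
  induction s with
  | zero =>
    intro A g _ hL hd
    exfalso
    apply hw
    refine isUnit_of_dvd_unit hd ?_
    obtain ⟨hg, c, -, hc⟩ := hL
    rw [Matrix.det_fin_zero] at hc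
    have h1 : g = C (coeff 0 g) := by
      ext m
      rw [coeff_C]
      split_ifs with h
      · rw [h]
      · have h2 := hc m
        rw [coeff_one, if_neg h, mul_zero] at h2
        exact bc_spec_zero h2
    have h3 : coeff 0 g ≠ 0 := by
      intro h0
      rw [h0, C_0] at h1
      exact hg h1
    rw [h1]
    exact (isUnit_iff_ne_zero.2 h3).map C
  | succ s ih =>
    intro A g hA hL hd
    have hne := bc_lead_ne hL
    obtain ⟨j, hj⟩ : ∃ j : Fin (s + 1), (A.submatrix Fin.succ j.succAbove).det ≠ 0 := by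
      by_contra hcon
      push Not at hcon
      apply hne
      rw [Matrix.det_succ_row_zero]
      refine Finset.sum_eq_zero fun j _ => ?_
      rw [hcon j, mul_zero]
    obtain ⟨r, hr⟩ := bc_exists_lead _ hj
    by_cases hwr : w ∣ r
    · obtain ⟨s', A', i', j', g', r', h1, h2⟩ :=
        ih (A.submatrix Fin.succ j.succAbove) r (fun i l => hA _ _) hr hwr
      exact ⟨s', A', i', j', g', r', h1.trans (Nat.le_succ s), h2⟩
    · have h1 : A.adjugate j 0 = (-1) ^ (((0 : Fin (s + 1)) : ℕ) + (j : ℕ)) *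
          (A.submatrix Fin.succ j.succAbove).det := by
        rw [Matrix.adjugate_fin_succ_eq_det_submatrix, Fin.succAbove_zero]
      have h2 : Lead (A.adjugate j 0) r := by
        rw [h1]
        exact bc_lead_sign hr _
      exact ⟨s + 1, A, j, 0, g, r, le_rfl, hA, hL, hd, h2, hwr⟩

theorem border_cofactor {k : Type u} [Field k] {σ : Type v} (w : MvPolynomial σ k)
    (hw : ¬ IsUnit w) {P : MvPolynomial σ k} (hP : P ≠ 0) (hd : w ∣ P) {s : ℕ}
    (hs : BorderDetLE P s) :
    ∃ (s' : ℕ) (A : Matrix (Fin s') (Fin s') (MvPolynomial σ (RatFunc k))) (i j : Fin s')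
      (g r : MvPolynomial σ k), s' ≤ s ∧ (∀ i j, (A i j).totalDegree ≤ 1) ∧ Lead A.det g ∧
      w ∣ g ∧ Lead (A.adjugate i j) r ∧ ¬ w ∣ r := by
  obtain ⟨F, hF, A, hA, hdet⟩ := hs
  refine bc_main w hw s A P hA ⟨hP, 1, one_ne_zero, fun m => ?_⟩ hd
  rw [one_mul, hdet]
  exact hF m

end Pool.Agent.ZTD
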