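import Mathlib

/-!
# MP_9ce8c8_lc: zero tests for the permanent by determinants. A cofactor of low multiplicity.
-/

set_option autoImplicit false

namespace Pool.Agent.ZTD

open Finset

universe u

theorem cofactor {A : Type u} [CommRing A] [IsDomain A] [WfDvdMonoid A] {s : ℕ}
    (M : Matrix (Fin s) (Fin s) A) (f : A) (hf : Prime f) (h0 : M.det ≠ 0) (hd : f ∣ M.det) :
    ∃ (i j : Fin s) (e a : ℕ) (G R : A), 0 < a ∧ ¬ f ∣ G ∧ ¬ f ∣ R ∧
      M.det = f ^ (e + a) * G ∧ M.adjugate i j = f ^ e * R := by
  classical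
  obtain ⟨m, G, hG, hm⟩ := WfDvdMonoid.max_power_factor h0 hf.irreducible
  by_cases hall : ∀ i j, f ^ m ∣ M.adjugate i j
  · exfalso
    choose N hN using hall
    have hadj : M.adjugate = f ^ m • (Matrix.of N : Matrix (Fin s) (Fin s) A) := by
      ext i j
      rw [Matrix.smul_apply, Matrix.of_apply, smul_eq_mul]
      exact hN i j
    have h1 : M * (Matrix.of N : Matrix (Fin s) (Fin s) A) =
        G • (1 : Matrix (Fin s) (Fin s) A) := by
      have h2 : f ^ m • (M * (Matrix.of N : Matrix (Fin s) (Fin s) A)) =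
          f ^ m • (G • (1 : Matrix (Fin s) (Fin s) A)) := by
        rw [← Matrix.mul_smul, ← hadj, Matrix.mul_adjugate, smul_smul, ← hm]
      have hfm : f ^ m ≠ 0 := pow_ne_zero _ hf.ne_zero
      ext i j
      have h3 := congrFun (congrFun h2 i) j
      rw [Matrix.smul_apply, Matrix.smul_apply, smul_eq_mul, smul_eq_mul] at h3
      exact mul_left_cancel₀ hfm h3
    have h4 := congrArg Matrix.det h1
    rw [Matrix.det_mul, Matrix.det_smul, Matrix.det_one, mul_one] at h4
    have h5 : f ∣ G ^ Fintype.card (Fin s) := by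
      rw [← h4]
      exact hd.mul_right _
    exact hG (hf.dvd_of_dvd_pow h5)
  · push Not at hall
    obtain ⟨i, j, hij⟩ := hall
    have hne : M.adjugate i j ≠ 0 := by
      intro h
      rw [h] at hij
      exact hij (dvd_zero _)
    obtain ⟨e, R, hR, he⟩ := WfDvdMonoid.max_power_factor hne hf.irreducible
    have hlt : e < m := by
      by_contra hcon
      push Not at hcon
      apply hij
      rw [he]
      exact (pow_dvd_pow f hcon).mul_right _
    refine ⟨i, j, e, m - e, G, R, by omega, hG, hR, ?_, he⟩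
    rw [Nat.add_sub_cancel' hlt.le]
    exact hm

theorem det_add_entry {A : Type u} [CommRing A] {s : ℕ} (M : Matrix (Fin s) (Fin s) A)
    (i j : Fin s) (c : A) :
    (M.updateRow j (M j + Pi.single i c)).det = M.det + c * M.adjugate i j := by
  rw [Matrix.det_updateRow_add, Matrix.updateRow_eq_self, Matrix.adjugate_apply]
  congr 1
  have h : (Pi.single i c : Fin s → A) = c • Pi.single i 1 := by
    rw [← Pi.single_smul, smul_eq_mul, mul_one]
  rw [h, Matrix.det_updateRow_smul]

end Pool.Agent.ZTD
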