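import Pool.Agent.ZTD.Defs

/-!
# MP_9ce8c8_lc: zero tests for the permanent by determinants. From `k(ε)` to an extension of `K[[t]]`.
-/

set_option autoImplicit false

namespace Pool.Agent.ZTD

open MvPolynomial Finset
open Pool.Agent.H53.AC (SpecializesTo)
open Pool.Agent.H10.PerSL (exists_psi)

universe u v w

theorem chi_spec {k : Type u} [Field k] {K : Type u} [Field K] [Algebra k K]
    {L : Type u} [Field L] [Algebra (PowerSeries K) L]
    (hinj : Function.Injective (algebraMap (PowerSeries K) L))
    {σ : Type w} {τ : Type v} {B : ℕ} (hB : 0 < B) (E : σ → MvPolynomial τ (PowerSeries K))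
    (hE : ∀ i, (E i).totalDegree ≤ 1) :
    ∃ (ψ : RatFunc k →+* L) (χ : MvPolynomial σ (RatFunc k) →+* MvPolynomial τ L),
      (∀ c, χ (C c) = C (ψ c)) ∧ (∀ P, P.totalDegree ≤ 1 → (χ P).totalDegree ≤ 1) ∧
      ∀ (F : MvPolynomial σ (RatFunc k)) (f : MvPolynomial σ k),
        (∀ m, SpecializesTo (coeff m F) (coeff m f)) →
        ∃ G : MvPolynomial τ (PowerSeries K), χ F = map (algebraMap (PowerSeries K) L)
          (eval₂ ((C : PowerSeries K →+* _).comp ((PowerSeries.C (R := K)).comp (algebraMap k K)))
            E f + C (PowerSeries.X ^ B) * G) := by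
  classical
  obtain ⟨ψ, hψ⟩ := exists_psi (k := k) hinj hB
  let ι := algebraMap (PowerSeries K) L
  let χ : MvPolynomial σ (RatFunc k) →+* MvPolynomial τ L :=
    eval₂Hom ((C : L →+* MvPolynomial τ L).comp ψ) (fun i => map ι (E i))
  refine ⟨ψ, χ, fun c => ?_, fun P hP => ?_, fun F f hF => ?_⟩
  · simp only [χ, coe_eval₂Hom, eval₂_C, RingHom.comp_apply]
  · refine le_trans ?_ hP
    exact Pool.Agent.H72.Bp.Sub.totalDegree_eval₂_le ψ _
      (fun i => (Pool.Agent.H72.Bp.Sub.totalDegree_map_le ι (E i)).trans (hE i)) P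
  · choose b hb using fun m => hψ _ _ (hF m)
    let t := F.support ∪ f.support
    let mon : (σ →₀ ℕ) → MvPolynomial τ (PowerSeries K) := fun m => ∏ i ∈ m.support, E i ^ m i
    refine ⟨∑ m ∈ t, C (b m) * mon m, ?_⟩
    have h1 : χ F = ∑ m ∈ t, C (ψ (coeff m F)) * map ι (mon m) := by
      simp only [χ, coe_eval₂Hom]
      rw [eval₂_eq]
      refine (Finset.sum_subset (s₂ := t) (Finset.subset_union_left) ?_).trans ?_
      · intro m _ hm
        rw [MvPolynomial.notMem_support_iff.1 hm]
        simp
      · refine Finset.sum_congr rfl fun m _ => ?_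
        simp only [mon, map_prod, map_pow, RingHom.comp_apply]
    have h2 : eval₂ ((C : PowerSeries K →+* _).comp
            ((PowerSeries.C (R := K)).comp (algebraMap k K))) E f =
        ∑ m ∈ t, C (PowerSeries.C (algebraMap k K (coeff m f))) * mon m := by
      rw [eval₂_eq]
      refine (Finset.sum_subset (s₂ := t) (Finset.subset_union_right) ?_).trans ?_
      · intro m _ hm
        rw [MvPolynomial.notMem_support_iff.1 hm]
        simp
      · refine Finset.sum_congr rfl fun m _ => ?_
        simp only [mon, RingHom.comp_apply]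
    rw [h2, h1, map_add, map_mul, map_sum, map_sum, Finset.mul_sum, ← Finset.sum_add_distrib]
    refine Finset.sum_congr rfl fun m _ => ?_
    rw [hb m]
    simp only [map_mul, map_C, map_add, ι]
    ring

end Pool.Agent.ZTD
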