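import Pool.Agent.ZTD.Defs
import Pool.Agent.MUL.RZ

/-!
# MP_9ce8c8_lc: zero tests for the permanent by determinants. Module RD
-/

set_option autoImplicit false

namespace Pool.Agent.ZTD

open MvPolynomial Finset
open scoped Nat
open Pool.Agent.H10.PerSL (perPoly hensel constantCoeff_eval)
open Pool.Agent.H72.Dc (Tang class_bound class_lift det_border_subst tang_graph)
open Pool.Agent.H61.BD (DetLE BorderDetLE)
open Pool.Agent.MUL (per_prime per_degreeOf split_var)

universe u v w

private theorem RD_eval {k : Type*} [Field k] {σ : Type*} [DecidableEq σ] (R : MvPolynomial σ k)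
    (i : σ) (h : degreeOf i R = 0) (z : σ → k) (t : k) :
    eval (Function.update z i t) R = eval z R := by
  unfold eval
  simp only [coe_eval₂Hom]
  apply eval₂_congr
  intro j c hj hc
  rw [Function.update_of_ne]
  rintro rfl
  have h1 := monomial_le_degreeOf j (mem_support_iff.2 hc)
  rw [h] at h1
  exact (Finsupp.mem_support_iff.1 hj) (Nat.eq_zero_of_le_zero h1)

private theorem RD_red {k : Type*} [Field k] {σ : Type*} (D E f : MvPolynomial σ k) (i : σ)
    (hf : f = X i * D + E) (hD : degreeOf i D = 0) (hE : degreeOf i E = 0)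
    (u : MvPolynomial σ k) :
    ∃ (N : ℕ) (R : MvPolynomial σ k), degreeOf i R = 0 ∧ f ∣ D ^ N * u - R := by
  classical
  have hpow : ∀ N : ℕ, degreeOf i (D ^ N) = 0 := fun N => by
    have := degreeOf_pow_le i D N
    rw [hD, mul_zero] at this
    omega
  have hmul : ∀ P Q : MvPolynomial σ k, degreeOf i P = 0 → degreeOf i Q = 0 →
      degreeOf i (P * Q) = 0 := fun P Q hP hQ => by
    have := degreeOf_mul_le i P Q
    omega
  induction u using MvPolynomial.induction_on with
  | C a => exact ⟨0, C a, degreeOf_C a i, by simp⟩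
  | add p q hp hq =>
    obtain ⟨N1, R1, h1, g1, hg1⟩ := hp
    obtain ⟨N2, R2, h2, g2, hg2⟩ := hq
    refine ⟨N1 + N2, D ^ N2 * R1 + D ^ N1 * R2, ?_, D ^ N2 * g1 + D ^ N1 * g2, ?_⟩
    · have := degreeOf_add_le i (D ^ N2 * R1) (D ^ N1 * R2)
      rw [hmul _ _ (hpow N2) h1, hmul _ _ (hpow N1) h2] at this
      simpa using this
    · have e : D ^ (N1 + N2) * (p + q) - (D ^ N2 * R1 + D ^ N1 * R2) =
          D ^ N2 * (D ^ N1 * p - R1) + D ^ N1 * (D ^ N2 * q - R2) := by ring
      rw [e, hg1, hg2]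
      ring
  | mul_X p j hp =>
    obtain ⟨N, R, h1, g, hg⟩ := hp
    by_cases hij : j = i
    · subst hij
      refine ⟨N + 1, -(R * E), ?_, D ^ N * p - E * g, ?_⟩
      · rw [degreeOf_neg]
        exact hmul _ _ h1 hE
      · have e1 : X j * D = f - E := by rw [hf]; ring
        have e : D ^ (N + 1) * (p * X j) - -(R * E) = D ^ N * p * (X j * D) + R * E := by ring
        rw [e, e1]
        have e3 : D ^ N * p * (f - E) + R * E = f * (D ^ N * p) - E * (D ^ N * p - R) := by ring
        rw [e3, hg]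
        ring
    · refine ⟨N, R * X j, hmul _ _ h1 (degreeOf_X_of_ne (Ne.symm hij)), g * X j, ?_⟩
      have e : D ^ N * (p * X j) - R * X j = (D ^ N * p - R) * X j := by ring
      rw [e, hg]
      ring

private theorem RD_pderiv {k : Type*} [Field k] {σ : Type*} (D : MvPolynomial σ k) (i : σ)
    (hD : degreeOf i D = 0) : pderiv i D = 0 := by
  apply pderiv_eq_zero_of_notMem_vars
  rw [mem_vars_iff_degreeOf_ne_zero, not_not]
  exact hD

private theorem RD_not_dvd {k : Type*} [Field k] {σ : Type*} (f D : MvPolynomial σ k) (i : σ)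
    (hf : Prime f) (h : degreeOf i f = 1) (hD0 : D ≠ 0) (hD : degreeOf i D = 0) (N : ℕ) :
    ¬ f ∣ D ^ N := by
  intro h1
  obtain ⟨q, hq⟩ := hf.dvd_of_dvd_pow h1
  have hq0 : q ≠ 0 := by
    rintro rfl
    exact hD0 (by rw [hq, mul_zero])
  have h2 := degreeOf_mul_eq (n := i) hf.ne_zero hq0
  rw [← hq, hD, h] at h2
  omega

private theorem RD_map_deg {k : Type*} [Field k] {F : Type*} [Field F] {σ : Type*} (χ : k →+* F)
    (p : MvPolynomial σ k) (i : σ) (h : degreeOf i p = 0) :
    degreeOf i (MvPolynomial.map χ p) = 0 := by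
  classical
  apply Nat.eq_zero_of_le_zero
  rw [degreeOf_eq_sup]
  apply Finset.sup_le
  intro d hd
  have h1 := monomial_le_degreeOf i (support_map_subset χ p hd)
  rw [h] at h1
  exact h1

theorem red_gen {k : Type u} [Field k] {σ : Type v} (f : MvPolynomial σ k) (hf : Prime f)
    (h1 : ∀ i, degreeOf i f = 1) (Δ : MvPolynomial σ k) (h : ¬ f ∣ Δ) : Red f Δ := by
  intro i
  have hp := hf
  have hdeg := h1 i
  obtain ⟨D, E, hfe, hD0, hD, hE⟩ := split_var f i hdeg
  obtain ⟨N, R, hR, g, hg⟩ := RD_red D E f i hfe hD hE Δ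
  have hpd : pderiv i f = D := by
    rw [hfe, map_add, Derivation.leibniz, RD_pderiv D i hD, RD_pderiv E i hE, pderiv_X_self]
    simp
  rw [hpd]
  refine ⟨hD, E, N, R, g, hfe, hE, ?_, hR, ?_⟩
  · rintro rfl
    rw [sub_zero] at hg
    rcases hp.dvd_or_dvd (⟨g, hg⟩ : f ∣ D ^ N * Δ) with h1 | h1
    · exact RD_not_dvd _ D i hp hdeg hD0 hD N h1
    · exact h h1
  · rw [← hg]
    ring

theorem Red.map {k : Type u} [Field k] {F : Type w} [Field F] {σ : Type v}
    {f Δ : MvPolynomial σ k} (h : Red f Δ) (χ : k →+* F) :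
    Red (MvPolynomial.map χ f) (MvPolynomial.map χ Δ) := by
  intro i
  obtain ⟨hd, E, N, R, U, hf, hE, hR0, hR, hΔ⟩ := h i
  rw [pderiv_map]
  refine ⟨RD_map_deg χ _ i hd, MvPolynomial.map χ E, N, MvPolynomial.map χ R,
    MvPolynomial.map χ U, ?_, RD_map_deg χ _ i hE, ?_, RD_map_deg χ _ i hR, ?_⟩
  · conv_lhs => rw [hf]
    rw [map_add, map_mul, map_X]
  · intro h0
    exact hR0 (map_injective χ χ.injective (by rw [h0, map_zero]))
  · rw [← map_pow, ← map_mul, hΔ, map_add, map_mul]

theorem dvd_gen {k : Type u} [Field k] [Infinite k] {σ : Type v} (f : MvPolynomial σ k)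
    (hf : Prime f) (i : σ) (h1 : degreeOf i f = 1) (U : MvPolynomial σ k)
    (h : ∀ x, eval x f = 0 → eval x U = 0) : f ∣ U := by
  classical
  have hp := hf
  have hdeg := h1
  obtain ⟨D, E, hfe, hD0, hD, hE⟩ := split_var f i hdeg
  obtain ⟨N, R, hR, g, hg⟩ := RD_red D E f i hfe hD hE U
  have hDR : D * R = 0 := by
    apply MvPolynomial.funext
    intro z
    rw [map_mul, map_zero]
    by_cases hz : eval z D = 0
    · rw [hz, zero_mul]
    · have hf0 : eval (Function.update z i (-(eval z E) / eval z D)) f = 0 := by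
        rw [hfe, map_add, map_mul, eval_X, RD_eval D i hD, RD_eval E i hE, Function.update_self]
        field_simp
        ring
      have h1 := congrArg (eval (Function.update z i (-(eval z E) / eval z D))) hg
      rw [map_sub, map_mul, map_mul, h _ hf0, hf0, mul_zero, zero_mul, zero_sub, neg_eq_zero,
        RD_eval R i hR] at h1
      rw [h1, mul_zero]
  have hR0 : R = 0 := (mul_eq_zero.1 hDR).resolve_left hD0
  rw [hR0, sub_zero] at hg
  rcases hp.dvd_or_dvd (⟨g, hg⟩ : f ∣ D ^ N * U) with h1 | h1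
  · exact absurd h1 (RD_not_dvd _ D i hp hdeg hD0 hD N)
  · exact h1

end Pool.Agent.ZTD
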