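import Pool.Agent.ZTD.MV
import Pool.Agent.ZTD.RD
import Pool.Agent.ZTD.SHE
import Pool.Agent.ZTD.CF
import Pool.Agent.ZTD.CS
import Pool.Agent.ZTD.BC

/-!
# MP_9ce8c8_lc: zero tests for the permanent by determinants. The bound for multiples.
-/

set_option autoImplicit false

namespace Pool.Agent.ZTD

open MvPolynomial Finset
open Pool.Agent.H53.AC (SpecializesTo)
open Pool.Agent.H72.Dc (Tang class_bound)
open Pool.Agent.H61.BD (DetLE BorderDetLE)

universe u v w

private theorem A3_closure (F : Type u) [Field F] [CharZero F] :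
    ∃ (F' : Type u) (_ : Field F') (_ : Algebra (PowerSeries F) F'),
      Function.Injective (algebraMap (PowerSeries F) F') ∧ IsAlgClosed F' ∧ CharZero F' := by
  let A := AlgebraicClosure (FractionRing (PowerSeries F))
  let ph : PowerSeries F →+* A := (algebraMap (FractionRing (PowerSeries F)) A).comp
    (algebraMap (PowerSeries F) (FractionRing (PowerSeries F)))
  have hph : Function.Injective ph :=
    (algebraMap (FractionRing (PowerSeries F)) A).injective.comp (IsFractionRing.injective _ _)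
  refine ⟨A, inferInstance, ph.toAlgebra, hph, inferInstance, ?_⟩
  exact charZero_of_injective_ringHom (f := ph.comp (PowerSeries.C (R := F)))
    (hph.comp PowerSeries.C_injective)

private theorem A3_eval_aeval {F : Type u} [Field F] {σ : Type v} {τ : Type w}
    (E : σ → MvPolynomial τ F) (z : τ → F) (P : MvPolynomial σ F) :
    eval z (aeval E P) = eval (fun i => eval z (E i)) P := by
  have h : (eval z).comp (aeval E : MvPolynomial σ F →ₐ[F] MvPolynomial τ F).toRingHom =
      eval (fun i => eval z (E i)) := by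
    refine MvPolynomial.ringHom_ext (fun c => ?_) fun i => ?_
    · simp
    · simp
  exact RingHom.congr_fun h P

private theorem A3_hom {k : Type u} [Field k] {F₂ : Type u} [Field F₂] (χ : k →+* F₂)
    {σ : Type v} {τ : Type w} (E : σ → MvPolynomial τ F₂) (P : MvPolynomial σ k) :
    eval₂ ((C : PowerSeries F₂ →+* MvPolynomial τ (PowerSeries F₂)).comp ((co F₂).comp χ))
      (fun i => map (co F₂) (E i)) P = map (co F₂) (aeval E (map χ P)) := by
  have h : eval₂Hom ((C : PowerSeries F₂ →+* MvPolynomial τ (PowerSeries F₂)).comp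
      ((co F₂).comp χ)) (fun i => map (co F₂) (E i)) =
      (map (co F₂)).comp
        ((aeval E : MvPolynomial σ F₂ →ₐ[F₂] MvPolynomial τ F₂).toRingHom.comp (map χ)) := by
    refine MvPolynomial.ringHom_ext (fun c => ?_) fun i => ?_
    · rw [coe_eval₂Hom, eval₂_C]
      simp only [RingHom.comp_apply, map_C]
      change C _ = map (co F₂) (aeval E (C (χ c)))
      rw [aeval_C, algebraMap_eq, map_C]
    · rw [coe_eval₂Hom, eval₂_X]
      simp only [RingHom.comp_apply, map_X]
      change _ = map (co F₂) (aeval E (X i))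
      rw [aeval_X]
  exact RingHom.congr_fun h P

theorem bound_gen {k : Type u} [Field k] {F : Type u} [Field F] [IsAlgClosed F] [CharZero F]
    (χ : k →+* F) {σ : Type} [Fintype σ] [DecidableEq σ] (f : MvPolynomial σ k) (hf : Prime f)
    (h1 : ∀ i, degreeOf i f = 1) {τ : Type} [Fintype τ] [DecidableEq τ]
    (E : σ → MvPolynomial τ F) (hE : ∀ i, (E i).totalDegree ≤ 1) (b : τ → F) (hb : b ≠ 0)
    (S : Finset (τ → F)) (hS : ∀ z ∈ S, Tang (aeval E (map χ f)) b z) {s : ℕ}
    (P : MvPolynomial σ k) (h0 : P ≠ 0) (hd : f ∣ P) (hP : BorderDetLE P s) :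
    S.card * Fintype.card τ ^ Fintype.card τ ≤ (11 * s) ^ Fintype.card τ := by
  classical
  obtain ⟨s', A, i, j, g, r, hs', hA, hg, hfg, hr, hfr⟩ :=
    border_cofactor f hf.not_isUnit h0 hd hP
  obtain ⟨hg0, c, hc, hcg⟩ := hg
  obtain ⟨hr0, c', hc', hcr⟩ := hr
  obtain ⟨a, G, hG, hgG⟩ := WfDvdMonoid.max_power_factor hg0 hf.irreducible
  have ha : 0 < a := by
    rcases Nat.eq_zero_or_pos a with rfl | ha
    · rw [pow_zero, one_mul] at hgG
      exact absurd (hgG ▸ hfg) hG
    · exact ha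
  have hGR : ¬ f ∣ G * r := fun h => (hf.dvd_or_dvd h).elim hG hfr
  have hred := (red_gen f hf h1 (G * r) hGR).map χ
  obtain ⟨F₂, _, _, _, χ₂, E₂, b₂, S₂, hb₂, hE₂, hcard, hS₂⟩ :=
    move (map χ f) (map χ (G * r)) hred E hE b hb S hS
  obtain ⟨L, _, _, hinj, _, _⟩ := A3_closure F₂
  set ι := algebraMap (PowerSeries F₂) L with hι
  let _ : Algebra k F₂ := (χ₂.comp χ).toAlgebra
  have halg : algebraMap k F₂ = χ₂.comp χ := rfl
  obtain ⟨ψ, χ₁, hC, hdeg, hspec⟩ := chi_spec (k := k) hinj (Nat.succ_pos a)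
    (fun q => map (co F₂) (E₂ q))
    (fun q => (Pool.Agent.H72.Bp.Sub.totalDegree_map_le (co F₂) (E₂ q)).trans (hE₂ q))
  set w := aeval E₂ (map χ₂ (map χ f)) with hw
  set Q := aeval E₂ (map χ₂ (map χ G)) with hQ
  set R' := aeval E₂ (map χ₂ (map χ r)) with hR'
  obtain ⟨G₁, hG₁⟩ := hspec (C c * A.det) g fun m => by
    rw [coeff_C_mul]
    exact hcg m
  obtain ⟨G₂, hG₂⟩ := hspec (C c' * A.adjugate i j) r fun m => by
    rw [coeff_C_mul]
    exact hcr m
  have hψc : ψ c ≠ 0 := by rwa [Ne, map_eq_zero]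
  have hψc' : ψ c' ≠ 0 := by rwa [Ne, map_eq_zero]
  rw [halg, A3_hom, ← MvPolynomial.map_map] at hG₁ hG₂
  rw [map_mul, hC, ← hι] at hG₁ hG₂
  set N : Matrix (Fin s') (Fin s') (MvPolynomial τ L) := χ₁.mapMatrix A with hN
  set δ : L := ι (PowerSeries.X ^ a) * ψ c' / ψ c with hδ
  set M' : Matrix (Fin s') (Fin s') (MvPolynomial τ L) :=
    N.updateRow j (N j + Pi.single i (C δ)) with hM'
  have hM'deg : ∀ p q, (M' p q).totalDegree ≤ 1 := by
    intro p q
    by_cases hpj : p = j
    · subst hpj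
      rw [hM', Matrix.updateRow_self, Pi.add_apply]
      refine (totalDegree_add _ _).trans (max_le (hdeg _ (hA p q)) ?_)
      by_cases hq : q = i
      · subst hq
        rw [Pi.single_eq_same, totalDegree_C]
        exact Nat.zero_le _
      · rw [Pi.single_eq_of_ne hq, totalDegree_zero]
        exact Nat.zero_le _
    · rw [hM', Matrix.updateRow_ne hpj]
      exact hdeg _ (hA p q)
  set Rh : MvPolynomial τ (PowerSeries F₂) :=
    map (co F₂) R' + C PowerSeries.X * G₁ + C (PowerSeries.X ^ (a + 1)) * G₂ with hRh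
  have hRhc : map (cc F₂) Rh = R' := by
    have h2 : (cc F₂).comp (co F₂) = RingHom.id F₂ := by
      ext x
      exact PowerSeries.constantCoeff_C _
    rw [hRh]
    simp only [map_add, map_mul, map_C, map_pow, MvPolynomial.map_map, h2, MvPolynomial.map_id,
      PowerSeries.constantCoeff_X, ne_eq, Nat.succ_ne_zero, not_false_eq_true, zero_pow, C_0,
      zero_mul, add_zero]
  have hM'det : M'.det = map ι (map (co F₂) w ^ a * map (co F₂) Q +
      C (PowerSeries.X ^ a) * Rh) * C (ψ c)⁻¹ := by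
    have e1 : (C (ψ c) : MvPolynomial τ L) * C (ψ c)⁻¹ = 1 := by
      rw [← C_mul, mul_inv_cancel₀ hψc, C_1]
    have e2 : (C δ : MvPolynomial τ L) = C (ι (PowerSeries.X ^ a)) * C (ψ c') * C (ψ c)⁻¹ := by
      rw [hδ, ← C_mul, ← C_mul, div_eq_mul_inv]
    have e3 : map (co F₂) (aeval E₂ (map χ₂ (map χ g))) =
        map (co F₂) w ^ a * map (co F₂) Q := by
      rw [hgG, hw, hQ]
      simp only [map_mul, map_pow]
    have e4 : M'.det = χ₁ A.det + C δ * χ₁ (A.adjugate i j) := by
      rw [hM', det_add_entry, hN, ← RingHom.map_det, ← RingHom.map_adjugate,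
        RingHom.mapMatrix_apply, Matrix.map_apply]
    have e5 : χ₁ A.det = (C (ψ c) * χ₁ A.det) * C (ψ c)⁻¹ := by
      rw [mul_comm (C (ψ c)), mul_assoc, e1, mul_one]
    rw [e4, e2, e5, hG₁, e3]
    have e6 : (C (ι (PowerSeries.X ^ a)) : MvPolynomial τ L) * C (ψ c') * C (ψ c)⁻¹ *
        χ₁ (A.adjugate i j) = C (ι (PowerSeries.X ^ a)) * (C (ψ c') * χ₁ (A.adjugate i j)) *
          C (ψ c)⁻¹ := by ring
    rw [e6, hG₂, hRh, ← hR']
    simp only [map_add, map_mul, map_pow, map_C, Nat.succ_eq_add_one]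
    ring
  have hpt : ∀ z : τ → F₂, ∃ q : τ → PowerSeries F₂, z ∈ S₂ →
      (∀ t, cc F₂ (q t) = z t) ∧
        Tang M'.det (fun t => ι (co F₂ (b₂ t))) (fun t => ι (q t)) := by
    intro z
    by_cases hz : z ∈ S₂
    · obtain ⟨hz1, hz2⟩ := hS₂ z hz
      rw [map_mul, map_mul, map_mul] at hz2
      obtain ⟨q, hq1, hq2⟩ := sheetE hinj w Q Rh a ha b₂ hb₂ z hz1
        (by rw [hQ, A3_eval_aeval]; exact left_ne_zero_of_mul hz2)
        (by rw [hRhc, hR', A3_eval_aeval]; exact right_ne_zero_of_mul hz2)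
      refine ⟨q, fun _ => ⟨hq1, ?_⟩⟩
      rw [hM'det]
      refine tang_mul _ _ _ _ hq2 ?_
      rw [eval_C]
      exact inv_ne_zero hψc
    · exact ⟨0, fun h => absurd h hz⟩
  choose q hq using hpt
  have hginj : Set.InjOn (fun z : τ → F₂ => fun t => ι (q z t)) (S₂ : Set (τ → F₂)) := by
    intro z hz z' hz' heq
    funext t
    have h1 := hinj (congrFun heq t)
    rw [← (hq z hz).1 t, ← (hq z' hz').1 t, h1]
  have hcard2 : (S₂.image fun z => fun t => ι (q z t)).card = S.card := by
    rw [Finset.card_image_of_injOn hginj, hcard]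
  rw [← hcard2]
  refine (class_bound M' hM'deg (b := fun t => ι (co F₂ (b₂ t))) ?_ _ ?_).trans
    (Nat.pow_le_pow_left (Nat.mul_le_mul_left 11 hs') _)
  · intro h
    apply hb₂
    funext t
    have h1 := congrFun h t
    have h2 : ι (co F₂ (b₂ t)) = ι 0 := by rw [map_zero]; exact h1
    have h3 := hinj h2
    exact (map_eq_zero_iff (co F₂) PowerSeries.C_injective).1 h3
  · intro y hy
    obtain ⟨z, hz, rfl⟩ := Finset.mem_image.1 hy
    exact (hq z hz).2

end Pool.Agent.ZTD
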