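import Pool.Agent.ZTD.Defs

/-!
# MP_9ce8c8_lc: zero tests for the permanent by determinants. Curves and derivatives.
-/

set_option autoImplicit false

namespace Pool.Agent.ZTD

open MvPolynomial Finset
open Pool.Agent.H10.PerSL (perPoly hensel constantCoeff_eval)
open Pool.Agent.H72.Dc (Tang)

universe u v w

/-- the values of a polynomial that does not contain the variable `i` -/
private theorem cv_congr {F : Type u} [Field F] {σ : Type v} [DecidableEq σ]
    (p : MvPolynomial σ F) (i : σ) (hp : degreeOf i p = 0) (Z' : σ → PowerSeries F)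
    (a : PowerSeries F) :
    eval (Function.update Z' i a) (map (co F) p) = eval Z' (map (co F) p) := by
  rw [eval_map, eval_map]
  refine eval₂Hom_congr' (f₁ := co F) (f₂ := co F) rfl ?_ rfl
  intro j hj _
  have hne : j ≠ i := by
    rintro rfl
    obtain ⟨d, hd, hjd⟩ := (mem_vars_iff_mem_support j).1 hj
    have hle := monomial_le_degreeOf j hd
    rw [hp] at hle
    exact (Finsupp.mem_support_iff.1 hjd) (Nat.le_zero.1 hle)
  exact Function.update_of_ne hne _ _

/-- constant coefficients of the values of a polynomial with constant coefficients -/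
private theorem cv_cc {F : Type u} [Field F] {σ : Type v}
    (p : MvPolynomial σ F) (Z : σ → PowerSeries F) (z : σ → F) (h : ∀ j, cc F (Z j) = z j) :
    cc F (eval Z (map (co F) p)) = eval z p := by
  have h1 := constantCoeff_eval (map (co F) p) Z
  have h2 : (fun i => PowerSeries.constantCoeff (Z i)) = z := funext h
  have h3 : (PowerSeries.constantCoeff (R := F)).comp (co F) = RingHom.id F := by
    ext x
    simp
  rw [h2, MvPolynomial.map_map, h3, map_id] at h1
  exact h1

/-- a nonzero polynomial does not vanish identically on the line through `z` and a point where it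
is not zero -/
private theorem cv_line {F : Type u} [Field F] {σ : Type v} (R : MvPolynomial σ F)
    (z y : σ → F) (hy : eval y R ≠ 0) :
    eval (fun j => (PowerSeries.C (z j) + PowerSeries.X * PowerSeries.C (y j - z j) :
      PowerSeries F)) (map (co F) R) ≠ 0 := by
  set r : Polynomial F := eval₂ Polynomial.C
    (fun j => Polynomial.C (z j) + Polynomial.X * Polynomial.C (y j - z j)) R with hr
  have h1 : (Polynomial.evalRingHom (1 : F)) r = eval y R := by
    have h0 : (Polynomial.evalRingHom (1 : F)).comp Polynomial.C = RingHom.id F := by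
      ext x
      simp
    rw [hr, eval₂_comp_left, h0]
    have h2 : (⇑(Polynomial.evalRingHom (1 : F)) ∘ fun j =>
        (Polynomial.C (z j) + Polynomial.X * Polynomial.C (y j - z j))) = y := by
      funext j
      simp
    rw [h2]
    exact eval₂_id R
  have hr0 : r ≠ 0 := by
    intro h
    rw [h, map_zero] at h1
    exact hy h1.symm
  have h3 : (Polynomial.coeToPowerSeries.ringHom (R := F)) r =
      eval (fun j => (PowerSeries.C (z j) + PowerSeries.X * PowerSeries.C (y j - z j) :
        PowerSeries F)) (map (co F) R) := by
    have h0 : (Polynomial.coeToPowerSeries.ringHom (R := F)).comp Polynomial.C = co F := by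
      ext x
      simp
    rw [hr, eval₂_comp_left, h0, eval_map]
    congr 1
    funext j
    simp
  rw [← h3]
  intro h
  apply hr0
  exact Polynomial.coe_injective F (by simpa using h)

theorem curve {F : Type u} [Field F] [Infinite F] {σ : Type v} [Fintype σ] [DecidableEq σ]
    (f Δ : MvPolynomial σ F) (h : Red f Δ) (z : σ → F) (hz : eval z f = 0) (i : σ)
    (hi : eval z (pderiv i f) ≠ 0) :
    ∃ Z : σ → PowerSeries F, (∀ j, cc F (Z j) = z j) ∧ eval Z (map (co F) f) = 0 ∧
      eval Z (map (co F) Δ) ≠ 0 := by
  obtain ⟨hD, E, N, R, U, hf, hE, hR0, hR, hred⟩ := h i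
  set D := pderiv i f with hDdef
  obtain ⟨y, hy⟩ : ∃ y, eval y R ≠ 0 := by
    by_contra hcon
    push Not at hcon
    apply hR0
    refine MvPolynomial.funext fun x => ?_
    rw [hcon x, map_zero]
  set Z' : σ → PowerSeries F :=
    fun j => PowerSeries.C (z j) + PowerSeries.X * PowerSeries.C (y j - z j) with hZ'
  have hccZ' : ∀ j, cc F (Z' j) = z j := by
    intro j
    simp [hZ']
  set D' := eval Z' (map (co F) D) with hD'
  set E' := eval Z' (map (co F) E) with hE'
  have hccD : cc F D' = eval z D := cv_cc D Z' z hccZ'
  have hccE : cc F E' = eval z E := cv_cc E Z' z hccZ'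
  have hccD0 : PowerSeries.constantCoeff D' ≠ 0 := by
    have := hccD
    change PowerSeries.constantCoeff D' = _ at this
    rw [this]
    exact hi
  have hinv : D' * D'⁻¹ = 1 := PowerSeries.mul_inv_cancel D' hccD0
  set Z : σ → PowerSeries F := Function.update Z' i (-E' * D'⁻¹) with hZ
  have hZD : eval Z (map (co F) D) = D' := cv_congr D i hD Z' _
  have hZE : eval Z (map (co F) E) = E' := cv_congr E i hE Z' _
  have hZR : eval Z (map (co F) R) = eval Z' (map (co F) R) := cv_congr R i hR Z' _
  have hZi : Z i = -E' * D'⁻¹ := Function.update_self _ _ _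
  have hfZ : eval Z (map (co F) f) = 0 := by
    have h1 : eval Z (map (co F) f) = Z i * D' + E' := by
      rw [hf]
      simp only [map_add, map_mul, map_X, eval_X]
      rw [hZD, hZE]
    rw [h1, hZi]
    calc -E' * D'⁻¹ * D' + E' = -E' * (D' * D'⁻¹) + E' := by ring
      _ = 0 := by rw [hinv]; ring
  refine ⟨Z, ?_, hfZ, ?_⟩
  · intro j
    by_cases hj : j = i
    · subst hj
      rw [hZi]
      have h1 : cc F (D'⁻¹) = (eval z D)⁻¹ := by
        rw [← hccD]
        exact PowerSeries.constantCoeff_inv D'
      rw [map_mul, map_neg, h1, hccE]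
      have h2 : z j * eval z D + eval z E = 0 := by
        have h3 := hz
        rw [hf, map_add, map_mul, eval_X] at h3
        exact h3
      field_simp
      linear_combination -h2
    · rw [hZ, Function.update_of_ne hj]
      exact hccZ' j
  · intro h0
    have h1 := congrArg (fun p => eval Z (map (co F) p)) hred
    simp only [map_add, map_mul, map_pow] at h1
    rw [h0, hfZ, mul_zero, zero_mul, add_zero, hZR] at h1
    exact cv_line R z y hy h1.symm

/-- chain rule -/
private theorem cv_chain {F : Type u} [Field F] {σ : Type v} [Fintype σ] [DecidableEq σ]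
    {τ : Type v} [Fintype τ] [DecidableEq τ] (f : MvPolynomial σ F)
    (E : σ → MvPolynomial τ F) (t : τ) :
    pderiv t (aeval E f) = ∑ i, aeval E (pderiv i f) * pderiv t (E i) := by
  induction f using MvPolynomial.induction_on with
  | C a => simp
  | add p q hp hq =>
    simp only [map_add, hp, hq, add_mul, Finset.sum_add_distrib]
  | mul_X p i hp =>
    rw [map_mul, aeval_X, Derivation.leibniz, hp]
    have h1 : ∀ j, aeval E (pderiv j (p * X i)) * pderiv t (E j) =
        E i * (aeval E (pderiv j p) * pderiv t (E j)) +
          (if j = i then aeval E p * pderiv t (E i) else 0) := by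
      intro j
      rw [Derivation.leibniz]
      simp only [smul_eq_mul, map_add, map_mul, aeval_X]
      by_cases hj : j = i
      · subst hj
        simp only [pderiv_X_self, map_one, if_true]
        ring
      · rw [if_neg hj, pderiv_X_of_ne (Ne.symm hj), map_zero]
        ring
    rw [Finset.sum_congr rfl fun j _ => h1 j, Finset.sum_add_distrib, ← Finset.mul_sum,
      Finset.sum_ite_eq' Finset.univ i, if_pos (Finset.mem_univ i)]
    simp only [smul_eq_mul]
    ring

/-- values of substituted polynomials -/
private theorem cv_eval {F : Type u} [Field F] {σ : Type v}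
    {τ : Type v} (f : MvPolynomial σ F) (E : σ → MvPolynomial τ F) (z : τ → F) :
    eval z (aeval E f) = eval (fun i => eval z (E i)) f := by
  induction f using MvPolynomial.induction_on with
  | C a => simp
  | add p q hp hq => simp only [map_add, hp, hq]
  | mul_X p i hp => simp only [map_mul, aeval_X, eval_X, hp]

theorem exists_deriv {F : Type u} [Field F] {σ : Type v} [Fintype σ] [DecidableEq σ]
    {τ : Type v} [Fintype τ] [DecidableEq τ] (f : MvPolynomial σ F) (E : σ → MvPolynomial τ F)
    (b : τ → F) (hb : b ≠ 0) (z : τ → F) (hz : Tang (aeval E f) b z) :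
    ∃ i, eval (fun i => eval z (E i)) (pderiv i f) ≠ 0 := by
  by_contra hcon
  push Not at hcon
  obtain ⟨t, ht⟩ : ∃ t, b t ≠ 0 := by
    by_contra hc
    push Not at hc
    exact hb (funext hc)
  obtain ⟨ρ, hρ, hgrad⟩ := hz.2.1
  have h1 := hgrad t
  rw [cv_chain, map_sum] at h1
  have h2 : ∑ i, eval z (aeval E (pderiv i f) * pderiv t (E i)) = 0 := by
    refine Finset.sum_eq_zero fun i _ => ?_
    rw [map_mul, cv_eval, hcon i, zero_mul]
  rw [h2] at h1
  exact mul_ne_zero hρ ht h1.symm

end Pool.Agent.ZTD
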