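import Pool.Agent.H24.DcG.Fin
import Pool.Agent.MUL.LD
import Pool.Agent.MUL.IR

/-!
# MP_9ce8c8_lc: zero tests for the permanent by determinants. Definitions.
-/

set_option autoImplicit false

namespace Pool.Agent.ZTD

open MvPolynomial Finset

universe u v w

/-- constant coefficient -/
noncomputable abbrev cc (K : Type u) [Field K] : PowerSeries K →+* K :=
  PowerSeries.constantCoeff (R := K)

/-- constant series -/
noncomputable abbrev co (K : Type u) [Field K] : K →+* PowerSeries K := PowerSeries.C (R := K)

/-- `f` has degree at most one in every variable `i`, and `Δ` is, up to a power of the partial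
derivative and modulo `f`, equal to a nonzero polynomial that does not contain `i`. -/
def Red {k : Type u} [Field k] {σ : Type v} (f Δ : MvPolynomial σ k) : Prop :=
  ∀ i, degreeOf i (pderiv i f) = 0 ∧
    ∃ (E : MvPolynomial σ k) (N : ℕ) (R U : MvPolynomial σ k),
      f = X i * pderiv i f + E ∧ degreeOf i E = 0 ∧ R ≠ 0 ∧ degreeOf i R = 0 ∧
        pderiv i f ^ N * Δ = R + f * U

end Pool.Agent.ZTD
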