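import Pool.Agent.ZTD.Defs
import Pool.Agent.H10.PerSL.Dual

/-!
# MP_9ce8c8_lc: zero tests for the permanent by determinants. The nearby sheet.
-/

set_option autoImplicit false

namespace Pool.Agent.ZTD

open MvPolynomial Finset
open Pool.Agent.H10.PerSL (hensel constantCoeff_eval aeval_dual)
open Pool.Agent.H72.Dc (Tang)

universe u v w

theorem tang_mul {F : Type u} [Field F] {τ : Type v} [Fintype τ] [DecidableEq τ]
    (w Q : MvPolynomial τ F) (b : τ → F) (z : τ → F) (hz : Tang w b z) (hQ : eval z Q ≠ 0) :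
    Tang (w * Q) b z := by
  obtain ⟨h0, ⟨ρ, hρ, hg⟩, hnd⟩ := hz
  have hd : ∀ t, pderiv t (w * Q) = w * pderiv t Q + Q * pderiv t w := by
    intro t
    rw [Derivation.leibniz, smul_eq_mul, smul_eq_mul]
  refine ⟨?_, ⟨ρ * eval z Q, mul_ne_zero hρ hQ, ?_⟩, ?_⟩
  · rw [map_mul, h0, zero_mul]
  · intro t
    rw [hd, map_add, map_mul, map_mul, h0, hg]
    ring
  · intro v c hv1 hv2
    refine hnd v ((c - ρ * ∑ j, v j * eval z (pderiv j Q)) / eval z Q) hv1 fun t => ?_
    have h1 := hv2 t
    have h2 : ∀ j, v j * eval z (pderiv j (pderiv t (w * Q))) =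
        eval z Q * (v j * eval z (pderiv j (pderiv t w))) +
          (ρ * b t) * (v j * eval z (pderiv j Q)) + (ρ * eval z (pderiv t Q)) * (b j * v j) := by
      intro j
      rw [hd, map_add, Derivation.leibniz, Derivation.leibniz]
      simp only [smul_eq_mul, map_add, map_mul, h0, hg]
      ring
    rw [Finset.sum_congr rfl fun j _ => h2 j, Finset.sum_add_distrib, Finset.sum_add_distrib,
      ← Finset.mul_sum, ← Finset.mul_sum, ← Finset.mul_sum, hv1, mul_zero, add_zero] at h1
    rw [div_mul_eq_mul_div, eq_div_iff hQ]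
    linear_combination h1

private theorem sh_jac {A : Type u} [CommRing A] {K' : Type u} [Field K'] [Algebra A K']
    {κ : Type v} [Fintype κ] [DecidableEq κ] (G : κ → MvPolynomial κ A) (P : κ → K')
    (h : ∀ V : κ → K', (∀ i, aeval (fun j => (TrivSqZeroExt.inl (P j) +
      TrivSqZeroExt.inr (V j) : DualNumber K')) (G i) =
      TrivSqZeroExt.inl (aeval P (G i))) → V = 0) :
    (Matrix.of fun i j => aeval P (pderiv j (G i))).det ≠ 0 := by
  intro hdet
  obtain ⟨V, hV0, hV⟩ := Matrix.exists_mulVec_eq_zero_iff.2 hdet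
  apply hV0
  apply h
  intro i
  rw [aeval_dual]
  have h1 : ∑ j, V j * aeval P (pderiv j (G i)) = 0 := by
    have h2 := congrFun hV i
    simp only [Matrix.mulVec, dotProduct, Matrix.of_apply, Pi.zero_apply] at h2
    rw [← h2]
    exact Finset.sum_congr rfl fun j _ => mul_comm _ _
  rw [h1, TrivSqZeroExt.inr_zero, add_zero]

private theorem sh_jac' {A : Type u} [CommRing A] {K' : Type u} [Field K'] [Algebra A K']
    {κ : Type v} [Fintype κ] [DecidableEq κ] (G : κ → MvPolynomial κ A) (P : κ → K')
    (hdet : (Matrix.of fun i j => aeval P (pderiv j (G i))).det ≠ 0) (V : κ → K')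
    (hV : ∀ i, aeval (fun j => (TrivSqZeroExt.inl (P j) +
      TrivSqZeroExt.inr (V j) : DualNumber K')) (G i) = 0) : V = 0 := by
  by_contra hne
  apply hdet
  refine Matrix.exists_mulVec_eq_zero_iff.1 ⟨V, hne, ?_⟩
  funext i
  have h1 := congrArg TrivSqZeroExt.snd (hV i)
  rw [aeval_dual] at h1
  simp only [TrivSqZeroExt.snd_add, TrivSqZeroExt.snd_inl, TrivSqZeroExt.snd_inr, zero_add,
    TrivSqZeroExt.snd_zero] at h1
  simp only [Matrix.mulVec, dotProduct, Matrix.of_apply, Pi.zero_apply]
  rw [← h1]
  exact Finset.sum_congr rfl fun j _ => mul_comm _ _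

section sys

variable {F : Type u} [Field F] {τ : Type v} (w Q R : MvPolynomial τ F) (a : ℕ)

/-- the polynomial `w ^ a * Q + X ^ a * R` -/
private noncomputable def shH : MvPolynomial τ (PowerSeries F) :=
  map (co F) w ^ a * map (co F) Q + C (PowerSeries.X ^ a) * map (co F) R

/-- the system in the unknowns `z`, `ω`, `ρ` -/
private noncomputable def shG (b : τ → F) :
    τ ⊕ Bool → MvPolynomial (τ ⊕ Bool) (PowerSeries F)
  | Sum.inl t => (a : MvPolynomial (τ ⊕ Bool) (PowerSeries F)) * X (Sum.inr false) ^ (a - 1) *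
      (rename Sum.inl (map (co F) Q) * rename Sum.inl (map (co F) (pderiv t w))) +
      C PowerSeries.X * (X (Sum.inr false) ^ a * rename Sum.inl (map (co F) (pderiv t Q)) +
        rename Sum.inl (map (co F) (pderiv t R))) - X (Sum.inr true) * C (co F (b t))
  | Sum.inr false => rename Sum.inl (map (co F) w) - C PowerSeries.X * X (Sum.inr false)
  | Sum.inr true => X (Sum.inr false) ^ a * rename Sum.inl (map (co F) Q) +
      rename Sum.inl (map (co F) R)

variable {B : Type u} [CommRing B] [Algebra (PowerSeries F) B]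

private theorem sh_eval_inl (b : τ → F) (x : τ ⊕ Bool → B) (t : τ) :
    aeval x (shG w Q R a b (Sum.inl t)) =
      (a : B) * x (Sum.inr false) ^ (a - 1) * (aeval (fun t => x (Sum.inl t)) (map (co F) Q) *
        aeval (fun t => x (Sum.inl t)) (map (co F) (pderiv t w))) +
      algebraMap (PowerSeries F) B PowerSeries.X * (x (Sum.inr false) ^ a *
        aeval (fun t => x (Sum.inl t)) (map (co F) (pderiv t Q)) +
        aeval (fun t => x (Sum.inl t)) (map (co F) (pderiv t R))) -
      x (Sum.inr true) * algebraMap (PowerSeries F) B (co F (b t)) := by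
  simp only [shG, map_sub, map_add, map_mul, map_pow, aeval_X, algHom_C, aeval_rename, map_natCast]
  rfl

private theorem sh_eval_false (b : τ → F) (x : τ ⊕ Bool → B) :
    aeval x (shG w Q R a b (Sum.inr false)) = aeval (fun t => x (Sum.inl t)) (map (co F) w) -
      algebraMap (PowerSeries F) B PowerSeries.X * x (Sum.inr false) := by
  simp only [shG, map_sub, map_mul, aeval_X, algHom_C, aeval_rename]
  rfl

private theorem sh_eval_true (b : τ → F) (x : τ ⊕ Bool → B) :
    aeval x (shG w Q R a b (Sum.inr true)) =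
      x (Sum.inr false) ^ a * aeval (fun t => x (Sum.inl t)) (map (co F) Q) +
      aeval (fun t => x (Sum.inl t)) (map (co F) R) := by
  simp only [shG, map_add, map_mul, map_pow, aeval_X, aeval_rename]
  rfl

private theorem sh_H (p : τ → B) (Ω : B)
    (h : aeval p (map (co F) w) = algebraMap (PowerSeries F) B PowerSeries.X * Ω) :
    aeval p (shH w Q R a) = algebraMap (PowerSeries F) B PowerSeries.X ^ a *
      (Ω ^ a * aeval p (map (co F) Q) + aeval p (map (co F) R)) := by
  simp only [shH, map_add, map_mul, map_pow, algHom_C, h]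
  ring

private theorem sh_dH (ha : 0 < a) (p : τ → B) (Ω : B)
    (h : aeval p (map (co F) w) = algebraMap (PowerSeries F) B PowerSeries.X * Ω) (t : τ) :
    aeval p (pderiv t (shH w Q R a)) = algebraMap (PowerSeries F) B PowerSeries.X ^ (a - 1) *
      ((a : B) * Ω ^ (a - 1) * (aeval p (map (co F) Q) * aeval p (map (co F) (pderiv t w))) +
        algebraMap (PowerSeries F) B PowerSeries.X * (Ω ^ a * aeval p (map (co F) (pderiv t Q)) +
          aeval p (map (co F) (pderiv t R)))) := by
  obtain ⟨a, rfl⟩ : ∃ a', a = a' + 1 := ⟨a - 1, by omega⟩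
  rw [Nat.add_sub_cancel, shH, map_add, Derivation.leibniz, Derivation.leibniz, pderiv_C,
    Derivation.leibniz_pow, pderiv_map, pderiv_map, pderiv_map, Nat.add_sub_cancel]
  simp only [smul_eq_mul, nsmul_eq_mul, map_add, map_mul, map_pow, algHom_C, h, add_zero,
    map_natCast, mul_zero]
  ring

end sys

private theorem sh_aeval_alg {R : Type u} {S : Type u} [CommRing R] [CommRing S] [Algebra R S]
    {σ : Type v} (x : σ → R) (p : MvPolynomial σ R) :
    aeval (fun i => algebraMap R S (x i)) p = algebraMap R S (eval x p) := by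
  rw [aeval_def, ← eval₂_id, hom_eval₂, RingHom.comp_id]

private theorem sh_aeval {R : Type u} {S : Type u} [CommRing R] [CommRing S] [Algebra R S]
    {σ : Type v} (x : σ → S) (p : MvPolynomial σ R) :
    aeval x p = eval x (map (algebraMap R S) p) := by
  rw [eval_map, aeval_def]

private theorem sh_unit {L : Type u} [Field L] {x : L} (hx : x ≠ 0) (m : ℕ) {y z : DualNumber L}
    (h : (TrivSqZeroExt.inl x : DualNumber L) ^ m * y = TrivSqZeroExt.inl x ^ m * z) : y = z := by
  have h1 : (TrivSqZeroExt.inl (x⁻¹) : DualNumber L) * TrivSqZeroExt.inl x = 1 := by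
    rw [TrivSqZeroExt.inl_mul_inl, inv_mul_cancel₀ hx, TrivSqZeroExt.inl_one]
  have h2 : (TrivSqZeroExt.inl (x⁻¹) : DualNumber L) ^ m * TrivSqZeroExt.inl x ^ m = 1 := by
    rw [← mul_pow, h1, one_pow]
  have h3 := congrArg (fun y => (TrivSqZeroExt.inl (x⁻¹) : DualNumber L) ^ m * y) h
  simp only [← mul_assoc, h2, one_mul] at h3
  exact h3

/-- the reduction of the system is nondegenerate -/
private theorem sh_red {F : Type u} [Field F] [CharZero F]
    {τ : Type v} [Fintype τ] [DecidableEq τ] (w Q R : MvPolynomial τ F) (a : ℕ) (ha : 0 < a)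
    (b : τ → F) (hb : b ≠ 0) (z : τ → F) (hz : Tang w b z) (hQ : eval z Q ≠ 0)
    (ρ₀ : F) (hρ₀ : ∀ t, eval z (pderiv t w) = ρ₀ * b t) (hρne : ρ₀ ≠ 0)
    (ω₀ : F) (hω : ω₀ ^ a * eval z Q + eval z R = 0) (hω0 : ω₀ ≠ 0) :
    (∀ i, eval (Sum.elim z fun β => cond β (a * ω₀ ^ (a - 1) * eval z Q * ρ₀) ω₀)
      (map (cc F) (shG w Q R a b i)) = 0) ∧
    (Matrix.of fun i j => eval (Sum.elim z fun β => cond β (a * ω₀ ^ (a - 1) * eval z Q * ρ₀) ω₀)
      (pderiv j (map (cc F) (shG w Q R a b i)))).det ≠ 0 := by
  letI : Algebra (PowerSeries F) F := (cc F).toAlgebra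
  have hcc : (algebraMap (PowerSeries F) F) = cc F := rfl
  have hX : algebraMap (PowerSeries F) F PowerSeries.X = 0 := PowerSeries.constantCoeff_X
  have hCo : ∀ c, algebraMap (PowerSeries F) F (co F c) = c := fun c =>
    PowerSeries.constantCoeff_C _
  have hco : ∀ p : MvPolynomial τ F, aeval z (map (co F) p) = eval z p := by
    intro p
    rw [sh_aeval, hcc, MvPolynomial.map_map]
    have h1 : (cc F).comp (co F) = RingHom.id F := by
      ext c
      exact PowerSeries.constantCoeff_C _
    rw [h1, MvPolynomial.map_id]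
  set P : τ ⊕ Bool → F := Sum.elim z fun β => cond β (a * ω₀ ^ (a - 1) * eval z Q * ρ₀) ω₀
    with hP
  have hPz : (fun t => P (Sum.inl t)) = z := rfl
  have hzero : ∀ i, aeval P (shG w Q R a b i) = 0 := by
    intro i
    rcases i with t | β
    · rw [sh_eval_inl, hPz, hco, hco, hco, hco, hX, hCo, hρ₀]
      simp only [hP, Sum.elim_inr, cond_false, cond_true]
      ring
    · cases β
      · rw [sh_eval_false, hPz, hco, hX, hz.1]
        ring
      · rw [sh_eval_true, hPz, hco, hco]
        exact hω
  refine ⟨fun i => ?_, ?_⟩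
  · rw [← hcc, ← sh_aeval]
    exact hzero i
  · have h1 : (Matrix.of fun i j => eval P (pderiv j (map (cc F) (shG w Q R a b i)))) =
        Matrix.of fun i j => aeval P (pderiv j (shG w Q R a b i)) := by
      ext i j
      rw [Matrix.of_apply, Matrix.of_apply, pderiv_map, ← hcc, ← sh_aeval]
    rw [h1]
    apply sh_jac
    intro V hV
    set x : τ ⊕ Bool → DualNumber F := fun j => TrivSqZeroExt.inl (P j) +
      TrivSqZeroExt.inr (V j) with hx
    set v : τ → F := fun t => V (Sum.inl t) with hv
    have hxp : ∀ p : MvPolynomial τ F, aeval (fun t => x (Sum.inl t)) (map (co F) p) =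
        TrivSqZeroExt.inl (eval z p) + TrivSqZeroExt.inr (∑ j, v j * eval z (pderiv j p)) := by
      intro p
      have h2 := aeval_dual (K := PowerSeries F) z v (map (co F) p)
      rw [hco] at h2
      simp only [pderiv_map, hco] at h2
      exact h2
    have hXD : algebraMap (PowerSeries F) (DualNumber F) PowerSeries.X = 0 := by
      have h2 : algebraMap (PowerSeries F) (DualNumber F) PowerSeries.X =
          TrivSqZeroExt.inl (algebraMap (PowerSeries F) F PowerSeries.X) := rfl
      rw [h2, hX, TrivSqZeroExt.inl_zero]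
    have hCoD : ∀ c, algebraMap (PowerSeries F) (DualNumber F) (co F c) =
        TrivSqZeroExt.inl c := by
      intro c
      have h2 : algebraMap (PowerSeries F) (DualNumber F) (co F c) =
          TrivSqZeroExt.inl (algebraMap (PowerSeries F) F (co F c)) := rfl
      rw [h2, hCo]
    have eA := hV (Sum.inr false)
    have eB := hV (Sum.inr true)
    have eC := fun t => hV (Sum.inl t)
    rw [hzero, sh_eval_false, hxp, hXD, hz.1] at eA
    rw [hzero, sh_eval_true, hxp, hxp] at eB
    simp only [hzero, sh_eval_inl, hxp, hXD, hCoD, hρ₀, zero_mul, add_zero] at eC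
    have hbv : ∑ t, b t * v t = 0 := by
      have h2 := congrArg TrivSqZeroExt.snd eA
      simp only [TrivSqZeroExt.snd_sub, TrivSqZeroExt.snd_add, TrivSqZeroExt.snd_inl,
        TrivSqZeroExt.snd_inr, zero_mul, TrivSqZeroExt.snd_zero, sub_zero, zero_add, hρ₀] at h2
      have h3 : ρ₀ * ∑ t, b t * v t = 0 := by
        rw [← h2, Finset.mul_sum]
        exact Finset.sum_congr rfl fun t _ => by ring
      exact (mul_eq_zero.1 h3).resolve_left hρne
    set ν : F := V (Sum.inr false) with hν
    set γ : F := V (Sum.inr true) with hγ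
    have hxf : x (Sum.inr false) = TrivSqZeroExt.inl ω₀ + TrivSqZeroExt.inr ν := rfl
    have hxt : x (Sum.inr true) =
      TrivSqZeroExt.inl (a * ω₀ ^ (a - 1) * eval z Q * ρ₀) + TrivSqZeroExt.inr γ := rfl
    set u : F := a * ω₀ ^ (a - 1) * eval z Q with hu
    have ha0 : (a : F) ≠ 0 := Nat.cast_ne_zero.2 ha.ne'
    have hu0 : u ≠ 0 := mul_ne_zero (mul_ne_zero ha0 (pow_ne_zero _ hω0)) hQ
    -- the second components of the third group of equations
    obtain ⟨u', hu'⟩ : ∃ u' : F, (a : DualNumber F) * x (Sum.inr false) ^ (a - 1) *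
        (TrivSqZeroExt.inl (eval z Q) + TrivSqZeroExt.inr (∑ j, v j * eval z (pderiv j Q))) =
        TrivSqZeroExt.inl u + TrivSqZeroExt.inr u' := by
      refine ⟨TrivSqZeroExt.snd ((a : DualNumber F) * x (Sum.inr false) ^ (a - 1) *
        (TrivSqZeroExt.inl (eval z Q) +
          TrivSqZeroExt.inr (∑ j, v j * eval z (pderiv j Q)))), ?_⟩
      ext
      · rw [hxf]
        simp [hu]
      · simp
    have eC2 : ∀ t, ∑ j, v j * eval z (pderiv j (pderiv t w)) = ((γ - u' * ρ₀) / u) * b t := by
      intro t
      have h2 := eC t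
      rw [← mul_assoc, hu', hxt] at h2
      have h3 := congrArg TrivSqZeroExt.snd h2
      simp only [TrivSqZeroExt.snd_sub, TrivSqZeroExt.snd_add, TrivSqZeroExt.snd_mul,
        TrivSqZeroExt.fst_add, TrivSqZeroExt.fst_inl, TrivSqZeroExt.snd_inl,
        TrivSqZeroExt.fst_inr, TrivSqZeroExt.snd_inr, smul_eq_mul,
        MulOpposite.smul_eq_mul_unop, MulOpposite.unop_op, add_zero, zero_add, mul_zero,
        TrivSqZeroExt.snd_zero] at h3
      field_simp
      linear_combination h3
    have hv0 : v = 0 := hz.2.2 v _ hbv eC2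
    have hvt : ∀ t, v t = 0 := fun t => congrFun hv0 t
    simp only [hvt, zero_mul, Finset.sum_const_zero, TrivSqZeroExt.inr_zero, add_zero] at eB hu'
    have hν0 : ν = 0 := by
      have h2 := congrArg TrivSqZeroExt.snd eB
      have h3 : TrivSqZeroExt.snd (x (Sum.inr false) ^ a) = a * ω₀ ^ (a - 1) * ν := by
        rw [TrivSqZeroExt.snd_pow, hxf]
        simp [mul_assoc]
      simp only [TrivSqZeroExt.snd_add, TrivSqZeroExt.snd_mul, TrivSqZeroExt.snd_inl, smul_eq_mul,
        MulOpposite.smul_eq_mul_unop, MulOpposite.unop_op, TrivSqZeroExt.fst_inl, mul_zero,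
        add_zero, zero_add, h3] at h2
      have h4 : u * ν = 0 := by
        rw [hu]
        linear_combination h2
      exact (mul_eq_zero.1 h4).resolve_left hu0
    have hu'0 : u' = 0 := by
      have h2 := congrArg TrivSqZeroExt.snd hu'
      rw [hxf, hν0, TrivSqZeroExt.inr_zero, add_zero] at h2
      have h3 : ((a : DualNumber F) * TrivSqZeroExt.inl ω₀ ^ (a - 1) *
        TrivSqZeroExt.inl (eval z Q)) = TrivSqZeroExt.inl (a * ω₀ ^ (a - 1) * eval z Q) := by
        rw [TrivSqZeroExt.inl_mul, TrivSqZeroExt.inl_mul, TrivSqZeroExt.inl_pow]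
        rfl
      rw [h3] at h2
      simpa using h2.symm
    have hγ0 : γ = 0 := by
      obtain ⟨t, ht⟩ : ∃ t, b t ≠ 0 := by
        by_contra hcon
        push Not at hcon
        exact hb (funext hcon)
      have h2 := eC2 t
      simp only [hvt, zero_mul, Finset.sum_const_zero, hu'0, sub_zero] at h2
      have h3 := h2.symm
      rw [div_mul_eq_mul_div, div_eq_zero_iff] at h3
      rcases h3 with h3 | h3
      · exact (mul_eq_zero.1 h3).resolve_right ht
      · exact absurd h3 hu0
    funext i
    rcases i with t | β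
    · exact hvt t
    · cases β
      · exact hν0
      · exact hγ0

theorem sheet {F : Type u} [Field F] [IsAlgClosed F] [CharZero F] {L : Type u} [Field L]
    [Algebra (PowerSeries F) L] (hinj : Function.Injective (algebraMap (PowerSeries F) L))
    {τ : Type v} [Fintype τ] [DecidableEq τ] (w Q R : MvPolynomial τ F) (e a : ℕ) (ha : 0 < a)
    (b : τ → F) (hb : b ≠ 0) (z : τ → F) (hz : Tang w b z) (hQ : eval z Q ≠ 0)
    (hR : eval z R ≠ 0) :
    ∃ q : τ → PowerSeries F, (∀ t, cc F (q t) = z t) ∧
      Tang (map (algebraMap (PowerSeries F) L) (map (co F) w ^ e *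
          (map (co F) w ^ a * map (co F) Q + C (PowerSeries.X ^ a) * map (co F) R)))
        (fun t => algebraMap (PowerSeries F) L (co F (b t)))
        (fun t => algebraMap (PowerSeries F) L (q t)) := by
  classical
  obtain ⟨ρ₀, hρne, hρ₀⟩ := hz.2.1
  obtain ⟨ω₀, hω₀⟩ := IsAlgClosed.exists_pow_nat_eq (-eval z R / eval z Q) ha
  have hω : ω₀ ^ a * eval z Q + eval z R = 0 := by
    rw [hω₀, div_mul_cancel₀ _ hQ, neg_add_cancel]
  have hω0 : ω₀ ≠ 0 := by
    rintro rfl
    rw [zero_pow ha.ne'] at hω₀
    rw [eq_comm, div_eq_zero_iff, neg_eq_zero] at hω₀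
    exact hω₀.elim hR hQ
  obtain ⟨hred0, hredJ⟩ := sh_red w Q R a ha b hb z hz hQ ρ₀ hρ₀ hρne ω₀ hω hω0
  obtain ⟨q, hq0, hqr⟩ := hensel (shG w Q R a b) _ hred0 hredJ
  set ι := algebraMap (PowerSeries F) L with hι
  have hx0 : ι PowerSeries.X ≠ 0 := by
    rw [Ne, map_eq_zero_iff ι hinj]
    exact PowerSeries.X_ne_zero
  have hqz : ∀ t, cc F (q (Sum.inl t)) = z t := fun t => hqr (Sum.inl t)
  have hqω : cc F (q (Sum.inr false)) = ω₀ := hqr (Sum.inr false)
  have hqρ : cc F (q (Sum.inr true)) = a * ω₀ ^ (a - 1) * eval z Q * ρ₀ := hqr (Sum.inr true)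
  -- the equations
  have hE : ∀ i, aeval q (shG w Q R a b i) = 0 := fun i => hq0 i
  have hEA := hE (Sum.inr false)
  have hEB := hE (Sum.inr true)
  have hEC := fun t => hE (Sum.inl t)
  rw [sh_eval_false] at hEA
  rw [sh_eval_true] at hEB
  simp only [sh_eval_inl] at hEC
  set qz : τ → PowerSeries F := fun t => q (Sum.inl t) with hqzdef
  set ω := q (Sum.inr false) with hωdef
  set ρ := q (Sum.inr true) with hρdef
  have hEA' : aeval qz (map (co F) w) =
      algebraMap (PowerSeries F) (PowerSeries F) PowerSeries.X * ω := sub_eq_zero.1 hEA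
  have hH0 : aeval qz (shH w Q R a) = 0 := by
    rw [sh_H w Q R a qz ω hEA', hEB, mul_zero]
  have hdH : ∀ t, aeval qz (pderiv t (shH w Q R a)) = PowerSeries.X ^ (a - 1) * (ρ * co F (b t)) := by
    intro t
    rw [sh_dH w Q R a ha qz ω hEA', sub_eq_zero.1 (hEC t)]
    rfl
  -- over `L`
  have hTH : Tang (map ι (shH w Q R a)) (fun t => ι (co F (b t))) (fun t => ι (qz t)) := by
    have hval : ∀ p : MvPolynomial τ (PowerSeries F), eval (fun t => ι (qz t)) (map ι p) =
        ι (aeval qz p) := by
      intro p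
      rw [hι, ← sh_aeval, sh_aeval_alg]
      rfl
    refine ⟨?_, ⟨ι (PowerSeries.X ^ (a - 1) * ρ), ?_, ?_⟩, ?_⟩
    · rw [hval, hH0, map_zero]
    · rw [Ne, map_eq_zero_iff ι hinj]
      refine mul_ne_zero (pow_ne_zero _ PowerSeries.X_ne_zero) ?_
      intro h
      rw [h, map_zero] at hqρ
      have ha0 : (a : F) ≠ 0 := Nat.cast_ne_zero.2 ha.ne'
      exact mul_ne_zero (mul_ne_zero (mul_ne_zero ha0 (pow_ne_zero _ hω0)) hQ) hρne hqρ.symm
    · intro t
      rw [pderiv_map, hval, hdH, ← map_mul, mul_assoc]
    · intro v c hv1 hv2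
      set x := ι PowerSeries.X with hx
      set dw : L := ∑ j, v j * aeval (fun t => ι (qz t)) (pderiv j (map (co F) w)) with hdw
      set V : τ ⊕ Bool → L := Sum.elim v fun β => cond β (c / x ^ (a - 1)) (dw / x) with hV
      set y : τ ⊕ Bool → DualNumber L := fun i => TrivSqZeroExt.inl (ι (q i)) +
        TrivSqZeroExt.inr (V i) with hy
      set p : τ → DualNumber L := fun t => y (Sum.inl t) with hp
      have hdual : ∀ f : MvPolynomial τ (PowerSeries F), aeval p f =
          TrivSqZeroExt.inl (ι (aeval qz f)) +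
            TrivSqZeroExt.inr (∑ j, v j * aeval (fun t => ι (qz t)) (pderiv j f)) := by
        intro f
        have h1 := aeval_dual (K := PowerSeries F) (fun t => ι (qz t)) v f
        rw [hι, sh_aeval_alg] at h1
        exact h1
      have hXD : algebraMap (PowerSeries F) (DualNumber L) PowerSeries.X =
          TrivSqZeroExt.inl x := rfl
      have hCD : ∀ c, algebraMap (PowerSeries F) (DualNumber L) c =
          TrivSqZeroExt.inl (ι c) := fun _ => rfl
      have hyf : y (Sum.inr false) = TrivSqZeroExt.inl (ι ω) + TrivSqZeroExt.inr (dw / x) := rfl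
      have hyt : y (Sum.inr true) = TrivSqZeroExt.inl (ι ρ) +
        TrivSqZeroExt.inr (c / x ^ (a - 1)) := rfl
      -- first equation
      have f1 : aeval p (map (co F) w) =
          algebraMap (PowerSeries F) (DualNumber L) PowerSeries.X * y (Sum.inr false) := by
        rw [hdual, hEA', hXD, hyf]
        have h1 : ι (algebraMap (PowerSeries F) (PowerSeries F) PowerSeries.X * ω) = x * ι ω := by
          rw [map_mul]
          rfl
        rw [h1, ← hdw]
        ext
        · simp
        · simp only [TrivSqZeroExt.snd_add, TrivSqZeroExt.snd_mul, TrivSqZeroExt.fst_add,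
            TrivSqZeroExt.fst_inl, TrivSqZeroExt.snd_inl, TrivSqZeroExt.fst_inr,
            TrivSqZeroExt.snd_inr, smul_eq_mul, MulOpposite.smul_eq_mul_unop,
            MulOpposite.unop_op, add_zero, zero_add, mul_zero, zero_mul]
          field_simp
      -- second equation
      have g1 : aeval p (shH w Q R a) = 0 := by
        rw [hdual, hH0]
        have h1 : ∀ j, v j * aeval (fun t => ι (qz t)) (pderiv j (shH w Q R a)) =
            ι (PowerSeries.X ^ (a - 1) * ρ) * (ι (co F (b j)) * v j) := by
          intro j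
          rw [hι, sh_aeval_alg]
          have h2 : eval qz (pderiv j (shH w Q R a)) =
            PowerSeries.X ^ (a - 1) * (ρ * co F (b j)) := hdH j
          rw [h2, ← mul_assoc, map_mul]
          ring
        rw [Finset.sum_congr rfl fun j _ => h1 j, ← Finset.mul_sum, hv1, mul_zero, map_zero,
          TrivSqZeroExt.inl_zero, TrivSqZeroExt.inr_zero, add_zero]
      have f2 : y (Sum.inr false) ^ a * aeval p (map (co F) Q) + aeval p (map (co F) R) = 0 := by
        rw [sh_H w Q R a p _ f1, hXD] at g1
        refine sh_unit hx0 a ?_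
        rw [g1, mul_zero]
      -- third equation
      have f3 : ∀ t, (a : DualNumber L) * y (Sum.inr false) ^ (a - 1) *
          (aeval p (map (co F) Q) * aeval p (map (co F) (pderiv t w))) +
          algebraMap (PowerSeries F) (DualNumber L) PowerSeries.X *
            (y (Sum.inr false) ^ a * aeval p (map (co F) (pderiv t Q)) +
              aeval p (map (co F) (pderiv t R))) =
          y (Sum.inr true) * algebraMap (PowerSeries F) (DualNumber L) (co F (b t)) := by
        intro t
        refine sh_unit hx0 (a - 1) ?_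
        rw [← hXD, ← sh_dH w Q R a ha p _ f1 t, hdual, hdH, hyt, hXD, hCD]
        have h1 : ∑ j, v j * aeval (fun t => ι (qz t)) (pderiv j (pderiv t (shH w Q R a))) =
            c * ι (co F (b t)) := by
          rw [← hv2 t]
          refine Finset.sum_congr rfl fun j _ => ?_
          rw [hι, sh_aeval, pderiv_map, pderiv_map]
        rw [h1, TrivSqZeroExt.inl_pow, map_mul, map_mul, map_pow, ← hx]
        ext
        · simp
        · simp only [TrivSqZeroExt.snd_add, TrivSqZeroExt.snd_mul, TrivSqZeroExt.fst_add,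
            TrivSqZeroExt.fst_inl, TrivSqZeroExt.snd_inl, TrivSqZeroExt.fst_inr,
            TrivSqZeroExt.snd_inr, smul_eq_mul, MulOpposite.smul_eq_mul_unop,
            MulOpposite.unop_op, add_zero, zero_add, mul_zero, zero_mul,
            TrivSqZeroExt.fst_mul]
          have hxa : x ^ (a - 1) ≠ 0 := pow_ne_zero _ hx0
          field_simp
      -- the determinant
      have hdet : (Matrix.of fun i j => aeval (fun i => ι (q i))
          (pderiv j (shG w Q R a b i))).det ≠ 0 := by
        have h1 : (Matrix.of fun i j => aeval (fun i => ι (q i)) (pderiv j (shG w Q R a b i))) =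
            ι.mapMatrix (Matrix.of fun i j => eval q (pderiv j (shG w Q R a b i))) := by
          ext i j
          simp only [Matrix.of_apply, RingHom.mapMatrix_apply, Matrix.map_apply]
          exact sh_aeval_alg q _
        rw [h1, ← RingHom.map_det, Ne, map_eq_zero_iff ι hinj]
        intro h2
        apply hredJ
        have h3 := congrArg (cc F) h2
        rw [RingHom.map_det, map_zero] at h3
        rw [← h3]
        congr 1
        ext i j
        rw [Matrix.of_apply, RingHom.mapMatrix_apply, Matrix.map_apply, Matrix.of_apply,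
          pderiv_map]
        have h4 := constantCoeff_eval (pderiv j (shG w Q R a b i)) q
        have h5 : (fun i => PowerSeries.constantCoeff (q i)) =
            Sum.elim z fun β => cond β (a * ω₀ ^ (a - 1) * eval z Q * ρ₀) ω₀ := by
          funext i
          exact hqr i
        rw [h5] at h4
        exact h4.symm
      have hVz := sh_jac' (shG w Q R a b) (fun i => ι (q i)) hdet V (by
        intro i
        rcases i with t | β
        · have h1 := sh_eval_inl w Q R a b y t
          rw [f3 t, sub_self] at h1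
          exact h1
        · cases β
          · have h1 := sh_eval_false w Q R a b y
            rw [f1, sub_self] at h1
            exact h1
          · have h1 := sh_eval_true w Q R a b y
            rw [f2] at h1
            exact h1)
      funext t
      exact congrFun hVz (Sum.inl t)
  refine ⟨qz, hqz, ?_⟩
  have hpow : eval (fun t => ι (qz t)) (map ι (map (co F) w ^ e)) ≠ 0 := by
    have h1 : eval (fun t => ι (qz t)) (map ι (map (co F) w ^ e)) = ι (aeval qz (map (co F) w) ^ e) := by
      rw [hι, ← sh_aeval, sh_aeval_alg, map_pow (eval qz)]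
      rfl
    rw [h1, hEA', Ne, map_eq_zero_iff ι hinj]
    refine pow_ne_zero _ (mul_ne_zero PowerSeries.X_ne_zero ?_)
    intro h2
    rw [h2, map_zero] at hqω
    exact hω0 hqω.symm
  have h2 := tang_mul _ _ _ _ hTH hpow
  rw [← map_mul, mul_comm] at h2
  exact h2

end Pool.Agent.ZTD
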