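import Pool.Agent.ZTD.TL
import Pool.Agent.ZTD.SH
import Pool.Agent.H24.DcG.Core

/-!
# MP_9ce8c8_lc: the gadget with its points
-/

set_option autoImplicit false

namespace Pool.Agent.ZTD

open MvPolynomial Finset
open scoped Nat
open Pool.Agent.H10.PerSL (es perPoly perPoly_eval₂)
open Pool.Agent.PerSL2
open Pool.Agent.H24.DcG
open Pool.Agent.H72.Bp (crit3)
open Pool.Agent.H72.Dc

universe u v w

theorem gadget_points {n r d : ℕ} (hr : 0 < r) (hd : 0 < d) (hrd : 2 ^ r = 2 * d)
    (hn : 2 * 2 ^ r + r + r * (5 * (2 * 2 ^ r + 2 * r)) + (2 * 2 ^ r + 2 * r) + ((d + 1) + r) ≤ n)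
    (k : Type u) [Field k] [CharZero k] :
    ∃ (F : Type u) (_ : Field F) (_ : IsAlgClosed F) (_ : CharZero F) (_ : k →+* F)
      (τ : Type) (_ : Fintype τ) (_ : DecidableEq τ) (E : Fin n × Fin n → MvPolynomial τ F)
      (b : τ → F) (S : Finset (τ → F)) (cnt : ℕ),
      Fintype.card τ = (2 * d - 1) * (2 * d) + 1 ∧ (2 * d)! ≤ cnt * 2 ^ d ∧
      S.card = cnt ^ (2 * d - 1) ∧ b ≠ 0 ∧ (∀ i, (E i).totalDegree ≤ 1) ∧
      ∀ z ∈ S, Tang (aeval E (perPoly n F)) b z := by
  classical
  have : CharZero (AlgebraicClosure k) := charZero_of_injective_algebraMap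
    (algebraMap k (AlgebraicClosure k)).injective
  have hprim : ∀ N : ℕ, 0 < N → ∃ ζ : AlgebraicClosure k, IsPrimitiveRoot ζ N := by
    intro N hN
    have : NeZero N := ⟨hN.ne'⟩
    exact HasEnoughRootsOfUnity.exists_primitiveRoot _ _
  have hpos : 0 < 2 * 2 ^ r + 2 * r := by positivity
  have hkm : d + 1 < 2 * 2 ^ r := by
    rw [hrd]
    omega
  obtain ⟨ω, hω⟩ := hprim d hd
  obtain ⟨ζ, hζ⟩ := hprim (2 * 2 ^ r + 2 * r) hpos
  obtain ⟨Row, Col, i1, i2, i3, i4, A, c₁, L, Z, hRow, hCol, hEntry, hc1, hA⟩ :=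
    sharp_gadget (K := AlgebraicClosure k) (r := r) (k := d + 1) hr hkm hζ
  have hcI : Fintype.card (St r) = 2 * d := by
    rw [Fintype.card_fun, Fintype.card_fin, Fintype.card_fin, pow_one, hrd]
  -- the distinguished copy and its variables
  have hneI : Nonempty (St r) := by
    rw [← Fintype.card_pos_iff, hcI]; omega
  let ω₀ : St r := Classical.choice hneI
  let i₀ : St r := Classical.choice hneI
  obtain ⟨T, hT1, -, hT⟩ : ∃ T : Finset (St r), {i₀} ⊆ T ∧ T ⊆ univ ∧
      T.card = d + 1 := by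
    apply Finset.exists_subsuperset_card_eq (subset_univ _)
    · simp
    · rw [Finset.card_univ, hcI]; omega
  have hi₀ : i₀ ∈ T := hT1 (Finset.mem_singleton_self _)
  obtain ⟨b, cnt, S, hcnt, hS, hcrit⟩ :=
    crit3 hd hω {x : St r // x ≠ ω₀} (St r) hcI
  have hcΩ : Fintype.card {x : St r // x ≠ ω₀} = 2 * d - 1 := by
    rw [Fintype.card_subtype_compl, hcI]
    simp
  rw [hcΩ] at hS
  obtain ⟨e, he⟩ := Nat.exists_eq_add_of_le hn
  have hcR : Fintype.card (Row ⊕ Fin e) = n := by
    rw [Fintype.card_sum, hRow, Fintype.card_fin, he]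
  have hcC : Fintype.card (Col ⊕ Fin e) = n := by
    rw [Fintype.card_sum, hCol, Fintype.card_fin, he]
  let eR : Fin n ≃ Row ⊕ Fin e := (Fintype.equivFinOfCardEq hcR).symm
  let eC : Fin n ≃ Col ⊕ Fin e := (Fintype.equivFinOfCardEq hcC).symm
  let θ := aeval (R := PowerSeries (AlgebraicClosure k))
    (th (PowerSeries (AlgebraicClosure k)) ω₀ i₀ T)
  let B : Row ⊕ Fin e → Col ⊕ Fin e → MvPolynomial
      (({x : St r // x ≠ ω₀} × (St r)) ⊕ Unit)
      (PowerSeries (AlgebraicClosure k)) := fun i j => θ (pad e A i j)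
  let E : Fin n × Fin n → MvPolynomial
      (({x : St r // x ≠ ω₀} × (St r)) ⊕ Unit)
      (PowerSeries (AlgebraicClosure k)) := fun q => B (eR q.1) (eC q.2)
  let L' := AlgebraicClosure (FractionRing (PowerSeries (AlgebraicClosure k)))
  have hcz : CharZero (FractionRing (PowerSeries (AlgebraicClosure k))) :=
    charZero_of_injective_algebraMap (R := AlgebraicClosure k)
      (algebraMap (AlgebraicClosure k)
        (FractionRing (PowerSeries (AlgebraicClosure k)))).injective
  have hcz' : CharZero L' := charZero_of_injective_algebraMap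
    (algebraMap (FractionRing (PowerSeries (AlgebraicClosure k))) L').injective
  let ι := algebraMap (PowerSeries (AlgebraicClosure k)) L'
  have hinj : Function.Injective ι := by
    have h1 : ι = (algebraMap (FractionRing (PowerSeries (AlgebraicClosure k))) L').comp
        (algebraMap (PowerSeries (AlgebraicClosure k))
          (FractionRing (PowerSeries (AlgebraicClosure k)))) :=
      IsScalarTower.algebraMap_eq _ _ _
    have h2 : Function.Injective (algebraMap (PowerSeries (AlgebraicClosure k))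
        (FractionRing (PowerSeries (AlgebraicClosure k)))) := IsFractionRing.injective _ _
    have h3 : Function.Injective
        (algebraMap (FractionRing (PowerSeries (AlgebraicClosure k))) L') := RingHom.injective _
    rw [h1, RingHom.coe_comp]
    exact h3.comp h2
  have hpe : ∀ i j, Entry (pad e A i j) := by
    intro i j
    rcases i with i | i <;> rcases j with j | j
    · exact hEntry i j
    · exact Entry_zero
    · exact Entry_zero
    · change Entry (if i = j then 1 else 0)
      split_ifs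
      · exact Entry_one
      · exact Entry_zero
  have hE : ∀ q, (E q).totalDegree ≤ 1 := by
    intro q
    change (θ (pad e A (eR q.1) (eC q.2))).totalDegree ≤ 1
    rcases hpe (eR q.1) (eC q.2) with ⟨c, hc⟩ | ⟨c, x, hc⟩
    · rw [hc, aeval_C]
      exact (totalDegree_C _).le.trans (Nat.zero_le _)
    · rw [hc, map_mul, aeval_C, aeval_X]
      refine (totalDegree_mul _ _).trans ?_
      have h1 : (algebraMap (PowerSeries (AlgebraicClosure k)) (MvPolynomial
        (({x : St r // x ≠ ω₀} × (St r)) ⊕ Unit)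
        (PowerSeries (AlgebraicClosure k))) c).totalDegree = 0 := totalDegree_C _
      rw [h1, zero_add]
      exact th_deg ω₀ i₀ T x
  have hBsum : (∑ σ : (Col ⊕ Fin e) ≃ (Row ⊕ Fin e), ∏ c, B (σ c) c) =
      C (PowerSeries.X ^ L) * (C (PowerSeries.C c₁) * (rename Sum.inl (dsum {x : St r // x ≠ ω₀}
      (St r) (PowerSeries (AlgebraicClosure k)) (d + 1)) + X (Sum.inr ())) +
      C PowerSeries.X * θ Z) := by
    have hpm : (∑ σ : (Col ⊕ Fin e) ≃ (Row ⊕ Fin e), ∏ c, B (σ c) c) = θ (pm A) := by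
      rw [← pm_pad e A (hRow.trans hCol.symm), pm, map_sum]
      refine Finset.sum_congr rfl fun σ _ => ?_
      rw [map_prod]
    have hθd : θ (dsum (St r) (St r) (PowerSeries (AlgebraicClosure k))
        (d + 1)) = rename Sum.inl (dsum {x : St r // x ≠ ω₀} (St r)
          (PowerSeries (AlgebraicClosure k)) (d + 1)) + X (Sum.inr ()) := by
      have := aeval_th_dsum (R := PowerSeries (AlgebraicClosure k)) ω₀ hi₀
      rw [hT] at this
      exact this
    have hθC : ∀ c, θ (C c) = C c := fun c => aeval_C _ _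
    rw [hpm, hA, map_add, map_mul, map_mul, map_mul, hθC, hθC, hθC, hθd]
    simp only [map_pow]
    ring
  -- the polynomial `Φ`
  let Φ : MvPolynomial (({x : St r // x ≠ ω₀} × (St r)) ⊕ Unit)
      (PowerSeries (AlgebraicClosure k)) :=
    C (PowerSeries.C c₁) * (rename Sum.inl (dsum {x : St r // x ≠ ω₀}
      (St r) (PowerSeries (AlgebraicClosure k)) (d + 1)) + X (Sum.inr ())) +
      C PowerSeries.X * θ Z
  have hred : map (cc (AlgebraicClosure k)) Φ =
      C c₁ * (rename Sum.inl (dsum {x : St r // x ≠ ω₀} (St r)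
        (AlgebraicClosure k) (d + 1)) + X (Sum.inr ())) := by
    simp only [Φ, map_add, map_mul, map_C, map_X, map_rename, PowerSeries.constantCoeff_C,
      PowerSeries.constantCoeff_X, C_0, zero_mul, add_zero]
    rw [map_dsum]
  have h3 : ι (PowerSeries.X ^ L) ≠ 0 := by
    rw [Ne, map_eq_zero_iff ι hinj]
    exact pow_ne_zero _ PowerSeries.X_ne_zero
  let pt : ({x : St r // x ≠ ω₀} × (St r) → AlgebraicClosure k) →
      ((({x : St r // x ≠ ω₀} × (St r)) ⊕ Unit) → AlgebraicClosure k) :=
    fun x => Sum.elim x fun _ => -eval x (dsum {x : St r // x ≠ ω₀}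
      (St r) (AlgebraicClosure k) (d + 1))
  have hptinj : Function.Injective pt := by
    intro x x' hxx
    funext t
    exact congrFun hxx (Sum.inl t)
  let b₁ : ((({x : St r // x ≠ ω₀} × (St r)) ⊕ Unit)) → PowerSeries (AlgebraicClosure k) :=
    fun t => co (AlgebraicClosure k) (Sum.elim (fun _ => b) (fun _ => 1) t)
  have hb1 : (fun t => cc (AlgebraicClosure k) (b₁ t)) = Sum.elim (fun _ => b) fun _ => 1 := by
    funext t
    exact PowerSeries.constantCoeff_C _
  have hb0 : (fun t => cc (AlgebraicClosure k) (b₁ t)) ≠ 0 := by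
    rw [hb1]
    intro h0
    have := congrFun h0 (Sum.inr ())
    exact one_ne_zero this
  have hpts : ∀ x, ∃ q : ((({x : St r // x ≠ ω₀} × (St r)) ⊕ Unit)) →
      PowerSeries (AlgebraicClosure k), x ∈ S → (∀ t, cc (AlgebraicClosure k) (q t) = pt x t) ∧
        Tang (map ι Φ) (fun t => ι (b₁ t)) (fun t => ι (q t)) := by
    intro x
    by_cases hx : x ∈ S
    · obtain ⟨hp1, hp2⟩ := hcrit x hx
      have ht : Tang (map (cc (AlgebraicClosure k)) Φ) (fun t => cc (AlgebraicClosure k) (b₁ t))
          (pt x) := by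
        rw [hred, hb1]
        exact tang_graph _ hc1 hp1 hp2
      obtain ⟨q, ρ, hq1, hq2, hq3⟩ := tang_hensel Φ b₁ hb0 (pt x) ht
      refine ⟨q, fun _ => ⟨hq1, ?_⟩⟩
      refine tang_of_series hinj Φ b₁ hb0 q ρ hq2 hq3 ?_
      have : (fun t => cc (AlgebraicClosure k) (q t)) = pt x := funext hq1
      rw [this]
      exact ht
    · exact ⟨fun _ => 0, fun h => absurd h hx⟩
  choose Q hQ using hpts
  let g : ({x : St r // x ≠ ω₀} × (St r) → AlgebraicClosure k) →
      ((({x : St r // x ≠ ω₀} × (St r)) ⊕ Unit) → L') := fun x t => ι (Q x t)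
  have hginj : Set.InjOn g S := by
    intro x hx x' hx' hxx
    apply hptinj
    funext t
    rw [← (hQ x hx).1 t, ← (hQ x' hx').1 t]
    congr 1
    exact hinj (congrFun hxx t)
  have hcV : Fintype.card (({x : St r // x ≠ ω₀} × (St r)) ⊕ Unit) =
      (2 * d - 1) * (2 * d) + 1 := by
    rw [Fintype.card_sum, Fintype.card_prod, hcI, hcΩ, Fintype.card_unit]
  have hper : aeval (fun q => map ι (E q)) (perPoly n L') = map ι Φ * C (ι (PowerSeries.X ^ L)) := by
    have h1 : aeval (fun q => map ι (E q)) (perPoly n L') =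
        ∑ σ : (Col ⊕ Fin e) ≃ (Row ⊕ Fin e), ∏ c, map ι (B (σ c) c) :=
      perPoly_eval₂ (C : L' →+* MvPolynomial (({x : St r // x ≠ ω₀} × (St r)) ⊕ Unit) L')
        eR eC (fun i j => map ι (B i j))
    have h2 : (∑ σ : (Col ⊕ Fin e) ≃ (Row ⊕ Fin e), ∏ c, map ι (B (σ c) c)) =
        map ι (∑ σ : (Col ⊕ Fin e) ≃ (Row ⊕ Fin e), ∏ c, B (σ c) c) := by
      rw [map_sum]
      refine Finset.sum_congr rfl fun σ _ => ?_
      rw [map_prod]
    rw [h1, h2, hBsum, map_mul, map_C, mul_comm]
  refine ⟨L', inferInstance, inferInstance, hcz', ?_, (({x : St r // x ≠ ω₀} × (St r)) ⊕ Unit),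
    inferInstance, inferInstance, fun q => map ι (E q), fun t => ι (b₁ t), S.image g, cnt, hcV,
    hcnt, ?_, ?_, ?_, ?_⟩
  · exact ι.comp ((co (AlgebraicClosure k)).comp (algebraMap k (AlgebraicClosure k)))
  · rw [Finset.card_image_of_injOn hginj, hS]
  · intro h0
    have h1 := congrFun h0 (Sum.inr ())
    have h2 : ι (b₁ (Sum.inr ())) = 1 := by
      change ι (co (AlgebraicClosure k) 1) = 1
      rw [map_one, map_one]
    rw [h2] at h1
    exact one_ne_zero h1
  · intro q
    exact (Pool.Agent.H72.Bp.Sub.totalDegree_map_le _ _).trans (hE q)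
  · intro z hz
    obtain ⟨x, hx, rfl⟩ := Finset.mem_image.1 hz
    rw [hper]
    refine tang_mul _ _ _ _ (hQ x hx).2 ?_
    rw [eval_C]
    exact h3

end Pool.Agent.ZTD
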