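import Pool.Agent.ZTD.Defs
import Pool.Agent.ZTD.SH
import Pool.Agent.ZTD.GD
import Pool.Agent.ZTD.A3

/-!
# MP_9ce8c8_lc: zero tests for the permanent by determinants. Module FN
-/

set_option autoImplicit false

namespace Pool.Agent.ZTD

open MvPolynomial Finset
open scoped Nat
open Pool.Agent.H53.AC (SpecializesTo)
open Pool.Agent.H10.PerSL (perPoly hensel constantCoeff_eval)
open Pool.Agent.H72.Dc (Tang class_bound class_lift det_border_subst tang_graph)
open Pool.Agent.H61.BD (DetLE BorderDetLE)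
open Pool.Agent.MUL (per_prime per_degreeOf gr pt gr_prime gr_dvd)

universe u v w

private theorem fn_cc_per {n : ℕ} (hn : 1 ≤ n) (k : Type u) [Field k] :
    constantCoeff (perPoly n k) = 0 := by
  have : Nonempty (Fin n) := ⟨⟨0, hn⟩⟩
  rw [perPoly, Matrix.permanent, map_sum]
  refine Finset.sum_eq_zero fun σ _ => ?_
  rw [map_prod]
  refine Finset.prod_eq_zero (Finset.mem_univ (Classical.arbitrary (Fin n))) ?_
  simp

private theorem fn_cc_gr {n : ℕ} (hn : 1 ≤ n) (k : Type u) [Field k] :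
    constantCoeff (gr (perPoly n k)) = 0 := by
  rw [gr, map_sub, constantCoeff_rename, fn_cc_per hn, constantCoeff_X, sub_zero]

private theorem fn_border_pos {σ : Type v} {k : Type u} [Field k] (f : MvPolynomial σ k)
    (hf : constantCoeff f = 0) (P : MvPolynomial σ k) (h1 : f ∣ P) : ¬ BorderDetLE P 0 := by
  rintro ⟨F, hF, A, -, hA⟩
  rw [Matrix.det_fin_zero] at hA
  obtain ⟨P', Q, hQ, h1', h2⟩ := hF 0
  have h3 : coeff 0 P = 0 := by
    obtain ⟨U, rfl⟩ := h1
    rw [← constantCoeff_eq, map_mul, hf, zero_mul]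
  rw [h3] at h2
  rw [← hA] at h1'
  have h4 : P' = Q := by
    have hQ0 : algebraMap (Polynomial k) (RatFunc k) Q ≠ 0 := by
      rw [Ne, map_eq_zero_iff _ (RatFunc.algebraMap_injective k)]
      rintro rfl
      simp at hQ
    rw [coeff_zero_one, eq_div_iff hQ0, one_mul] at h1'
    exact (RatFunc.algebraMap_injective k h1').symm
  rw [h4, div_self hQ] at h2
  exact zero_ne_one h2

private theorem fn_map_per {n : ℕ} {k : Type u} [Field k] {F : Type w} [Field F] (χ : k →+* F) :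
    MvPolynomial.map χ (perPoly n k) = perPoly n F := by
  rw [perPoly, perPoly, Matrix.permanent, Matrix.permanent, map_sum]
  refine Finset.sum_congr rfl fun σ _ => ?_
  rw [map_prod]
  refine Finset.prod_congr rfl fun i _ => ?_
  simp

private theorem fn_deg_none {σ : Type v} {k : Type u} [Field k] (f : MvPolynomial σ k) :
    degreeOf none (rename some f) = 0 := by
  classical
  refine Nat.le_zero.1 (degreeOf_le_iff.2 fun m hm => ?_)
  obtain ⟨u, rfl, -⟩ := coeff_rename_ne_zero _ _ _ (mem_support_iff.1 hm)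
  rw [Finsupp.mapDomain_of_notMem_range]
  simp

private theorem fn_deg_gr {n : ℕ} (k : Type u) [Field k] (i : Option (Fin n × Fin n)) :
    degreeOf i (gr (perPoly n k)) = 1 := by
  classical
  have hinj : Function.Injective (some : Fin n × Fin n → Option (Fin n × Fin n)) :=
    Option.some_injective _
  apply le_antisymm
  · rw [gr]
    refine (degreeOf_sub_le _ _ _).trans ?_
    rcases i with _ | q
    · rw [fn_deg_none, degreeOf_X]
      simp
    · rw [degreeOf_rename_of_injective hinj, per_degreeOf, degreeOf_X]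
      simp
  · rcases i with _ | q
    · have h1 : (X none : MvPolynomial (Option (Fin n × Fin n)) k) =
          gr (perPoly n k) + rename some (perPoly n k) := by rw [gr]; ring
      have h2 := degreeOf_add_le none (gr (perPoly n k)) (rename some (perPoly n k))
      rw [← h1, fn_deg_none, degreeOf_X] at h2
      simpa using h2
    · have h1 : rename some (perPoly n k) =
          (X none : MvPolynomial (Option (Fin n × Fin n)) k) - gr (perPoly n k) := by
        rw [gr]; ring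
      have h2 := degreeOf_sub_le (some q)
        (X none : MvPolynomial (Option (Fin n × Fin n)) k) (gr (perPoly n k))
      rw [← h1, degreeOf_rename_of_injective hinj, per_degreeOf, degreeOf_X] at h2
      simpa using h2

private theorem fn_core {n r d : ℕ} (hn0 : 0 < n) (hr : 0 < r) (hd : 0 < d)
    (hrd : 2 ^ r = 2 * d)
    (hn : 2 * 2 ^ r + r + r * (5 * (2 * 2 ^ r + 2 * r)) + (2 * 2 ^ r + 2 * r) + ((d + 1) + r) ≤ n)
    (k : Type u) [Field k] [CharZero k] (s : ℕ)
    (h : (∃ P : MvPolynomial (Fin n × Fin n) k, P ≠ 0 ∧ perPoly n k ∣ P ∧ BorderDetLE P s) ∨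
      ∃ P : MvPolynomial (Option (Fin n × Fin n)) k, P ≠ 0 ∧ gr (perPoly n k) ∣ P ∧
        BorderDetLE P s) :
    ∃ cnt : ℕ, (2 * d)! ≤ cnt * 2 ^ d ∧
      cnt ^ (2 * d - 1) * ((2 * d - 1) * (2 * d) + 1) ^ ((2 * d - 1) * (2 * d) + 1) ≤
        (11 * s) ^ ((2 * d - 1) * (2 * d) + 1) := by
  obtain ⟨F, _, _, _, χ, τ, _, _, E, b, S, cnt, g1, g2, g3, g4, g5, g6⟩ :=
    gadget_points hr hd hrd hn k
  refine ⟨cnt, g2, ?_⟩
  rw [← g3, ← g1]
  rcases h with ⟨P, h0, h1, hP⟩ | ⟨P, h0, h1, hP⟩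
  · refine bound_gen χ (perPoly n k) (per_prime hn0 k) (per_degreeOf k) E g5 b g4 S ?_ P h0 h1 hP
    rw [fn_map_per]
    exact g6
  · refine bound_gen χ (gr (perPoly n k)) (gr_prime _) (fn_deg_gr k) (pt E 0) ?_ b g4 S ?_
      P h0 h1 hP
    · rintro (_ | q)
      · simp [pt]
      · exact g5 q
    · intro z hz
      have h2 : aeval (pt E 0) (MvPolynomial.map χ (gr (perPoly n k))) =
          aeval E (perPoly n F) * C (-1) := by
        rw [gr, map_sub, map_X, map_rename, fn_map_per, map_sub, aeval_X, aeval_rename]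
        have h3 : (pt E 0 : Option (Fin n × Fin n) → MvPolynomial τ F) ∘ some = E := rfl
        rw [h3]
        have h4 : (pt E 0 : Option (Fin n × Fin n) → MvPolynomial τ F) none = 0 := rfl
        rw [h4, C_neg, C_1]
        ring
      rw [h2]
      exact tang_mul _ _ b z (g6 z hz) (by simp)

private theorem fn_nat {n : ℕ} (hn : 2 ≤ n) (k : Type u) [Field k] [CharZero k] (s : ℕ)
    (h : (∃ P : MvPolynomial (Fin n × Fin n) k, P ≠ 0 ∧ perPoly n k ∣ P ∧ BorderDetLE P s) ∨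
      ∃ P : MvPolynomial (Option (Fin n × Fin n)) k, P ≠ 0 ∧ gr (perPoly n k) ∣ P ∧
        BorderDetLE P s) :
    n ^ 3 ≤ 10 ^ 7 * (Nat.log 2 n) ^ 3 * s := by
  rcases Nat.lt_or_ge n 2048 with hlt | hge
  · refine H24.DcG.small_nat hn hlt (Nat.one_le_iff_ne_zero.2 ?_)
    rintro rfl
    rcases h with ⟨P, -, h1, hP⟩ | ⟨P, -, h1, hP⟩
    · exact fn_border_pos _ (fn_cc_per (by omega) k) P h1 hP
    · exact fn_border_pos _ (fn_cc_gr (by omega) k) P h1 hP
  · obtain ⟨r, e1, e2, e3, e4⟩ := H24.DcG.choose_r n hge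
    have h5 : 2 ^ r = 32 * 2 ^ (r - 5) := by
      obtain ⟨q, rfl⟩ := Nat.exists_eq_add_of_le e1
      rw [Nat.add_sub_cancel_left, pow_add]
      norm_num
    have h6 : 2 ^ r = 2 * (16 * 2 ^ (r - 5)) := by rw [h5]; ring
    have h7 : 2 ^ r / 2 = 16 * 2 ^ (r - 5) := by omega
    have hpos : 0 < 2 ^ (r - 5) := by positivity
    rw [H24.DcG.sz, h7] at e2
    obtain ⟨cnt, g1, g2⟩ := fn_core (by omega) (by omega) (by positivity) h6 e2 k s h
    refine H24.DcG.final_nat e3 e4 (H24.DcG.asy_main hpos (cnt := cnt) ?_ ?_)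
    · have e1 : 2 * (16 * 2 ^ (r - 5)) = 32 * 2 ^ (r - 5) := by ring
      rwa [e1] at g1
    · have e1 : 2 * (16 * 2 ^ (r - 5)) = 32 * 2 ^ (r - 5) := by ring
      rwa [e1] at g2

private theorem fn_real {n : ℕ} (hn : 2 ≤ n) (k : Type u) [Field k] [CharZero k] (s : ℕ)
    (h : (∃ P : MvPolynomial (Fin n × Fin n) k, P ≠ 0 ∧ perPoly n k ∣ P ∧ BorderDetLE P s) ∨
      ∃ P : MvPolynomial (Option (Fin n × Fin n)) k, P ≠ 0 ∧ gr (perPoly n k) ∣ P ∧
        BorderDetLE P s) :
    (n : ℝ) ^ 3 / (10 ^ 7 * (Real.logb 2 n) ^ 3) ≤ s := by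
  have h := fn_nat hn k s h
  have h1 : (Nat.log 2 n : ℝ) ≤ Real.logb 2 n := by
    have := Real.natLog_le_logb n 2
    exact_mod_cast this
  have h0 : 1 ≤ Nat.log 2 n := Nat.le_log_of_pow_le (by norm_num) (by simpa using hn)
  have h0' : (1 : ℝ) ≤ Nat.log 2 n := by exact_mod_cast h0
  have h2 : (0 : ℝ) < Real.logb 2 n := by linarith
  rw [div_le_iff₀ (by positivity)]
  have h3 : (n : ℝ) ^ 3 ≤ 10 ^ 7 * (Nat.log 2 n : ℝ) ^ 3 * s := by exact_mod_cast h
  refine h3.trans ?_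
  calc 10 ^ 7 * (Nat.log 2 n : ℝ) ^ 3 * s ≤ 10 ^ 7 * (Real.logb 2 n) ^ 3 * s := by gcongr
    _ = s * (10 ^ 7 * Real.logb 2 n ^ 3) := by ring

theorem final {n : ℕ} (hn : 2 ≤ n) (k : Type u) [Field k] [CharZero k] (s : ℕ) :
    (∀ P : MvPolynomial (Fin n × Fin n) k, P ≠ 0 → perPoly n k ∣ P → BorderDetLE P s →
      (n : ℝ) ^ 3 / (10 ^ 7 * (Real.logb 2 n) ^ 3) ≤ s) ∧
    (∀ P : MvPolynomial (Option (Fin n × Fin n)) k, P ≠ 0 → gr (perPoly n k) ∣ P →
      BorderDetLE P s → (n : ℝ) ^ 3 / (10 ^ 7 * (Real.logb 2 n) ^ 3) ≤ s) :=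
  ⟨fun P h0 h1 hP => fn_real hn k s (Or.inl ⟨P, h0, h1, hP⟩),
    fun P h0 h1 hP => fn_real hn k s (Or.inr ⟨P, h0, h1, hP⟩)⟩

end Pool.Agent.ZTD
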