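import Pool.Agent.ZTD.Defs

/-!
# MP_9ce8c8_lc: zero tests for the permanent by determinants. The degrees of `y - per_n`.
-/

set_option autoImplicit false

namespace Pool.Agent.ZTD

open MvPolynomial Finset
open Pool.Agent.H10.PerSL (perPoly)
open Pool.Agent.MUL (per_degreeOf gr)

universe u

theorem gr_degreeOf {n : ℕ} (k : Type u) [Field k] (i : Option (Fin n × Fin n)) :
    degreeOf i (gr (perPoly n k)) = 1 := by
  classical
  have hX : ∀ q : Fin n × Fin n,
      degreeOf (some q) (X none : MvPolynomial (Option (Fin n × Fin n)) k) = 0 := fun q =>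
    degreeOf_X_of_ne (by simp)
  have hX' : degreeOf none (X none : MvPolynomial (Option (Fin n × Fin n)) k) = 1 :=
    degreeOf_X_self _
  have hr : degreeOf none (rename some (perPoly n k)) = 0 := by
    have h1 : none ∉ (rename some (perPoly n k)).vars := by
      intro h
      have h2 := vars_rename (some : Fin n × Fin n → Option (Fin n × Fin n)) (perPoly n k) h
      rw [Finset.mem_image] at h2
      obtain ⟨x, -, hx⟩ := h2
      exact Option.some_ne_none x hx
    rwa [mem_vars_iff_degreeOf_ne_zero, not_not] at h1
  have hr' : ∀ q, degreeOf (some q) (rename some (perPoly n k)) = 1 := fun q => by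
    rw [degreeOf_rename_of_injective (Option.some_injective _)]
    exact per_degreeOf k q
  have hle := degreeOf_sub_le i (X none) (rename some (perPoly n k))
  rcases i with _ | q
  · have e1 : (X none : MvPolynomial (Option (Fin n × Fin n)) k) =
        gr (perPoly n k) + rename some (perPoly n k) := by rw [gr]; ring
    have h1 := degreeOf_add_le none (gr (perPoly n k)) (rename some (perPoly n k))
    rw [← e1, hX', hr] at h1
    rw [hX', hr] at hle
    rw [gr] at h1 ⊢
    omega
  · have e1 : rename some (perPoly n k) = X none - gr (perPoly n k) := by rw [gr]; ring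
    have h1 := degreeOf_sub_le (some q) (X none) (gr (perPoly n k))
    rw [← e1, hX, hr'] at h1
    rw [hX, hr'] at hle
    rw [gr] at h1 ⊢
    omega

end Pool.Agent.ZTD
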