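import Pool.Agent.ZTD.Defs

/-!
# MP_9ce8c8_lc: zero tests for the permanent by determinants. Lifting of tangency points.
-/

set_option autoImplicit false

namespace Pool.Agent.ZTD

open MvPolynomial Finset
open Pool.Agent.H10.PerSL (hensel constantCoeff_eval)
open Pool.Agent.H72.Dc (Tang gp eval_gp eval_pderiv_gp_inl eval_pderiv_gp_inr map_gp)

universe u v w

section

variable {K : Type u} [Field K] {τ : Type v} [Fintype τ] [DecidableEq τ]

private noncomputable def tlG (Φ : MvPolynomial τ (PowerSeries K)) (b : τ → PowerSeries K) :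
    τ ⊕ Unit → MvPolynomial (τ ⊕ Unit) (PowerSeries K) :=
  fun i => gp (Sum.elim (fun t => pderiv t Φ) (fun _ => Φ) i) (Sum.elim b (fun _ => 0) i)

private theorem tl_inl (Φ : MvPolynomial τ (PowerSeries K)) (b : τ → PowerSeries K) (t : τ) :
    tlG Φ b (Sum.inl t) = gp (pderiv t Φ) (b t) := rfl

private theorem tl_inr (Φ : MvPolynomial τ (PowerSeries K)) (b : τ → PowerSeries K) (u : Unit) :
    tlG Φ b (Sum.inr u) = gp Φ 0 := rfl

/-- the Jacobian of the reduction is nonsingular -/
private theorem tl_jac (Φ : MvPolynomial τ (PowerSeries K)) (b : τ → PowerSeries K)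
    (hb : (fun t => cc K (b t)) ≠ 0) (z : τ → K)
    (hz : Tang (map (cc K) Φ) (fun t => cc K (b t)) z) (ρ : K) :
    (Matrix.of fun i j => eval (Sum.elim z fun _ => ρ)
      (pderiv j (map (cc K) (tlG Φ b i)))).det ≠ 0 := by
  obtain ⟨h0, ⟨ρ₀, hρ, hgrad⟩, hnd⟩ := hz
  set P : τ ⊕ Unit → K := Sum.elim z fun _ => ρ with hP
  have hPz : (fun t => P (Sum.inl t)) = z := rfl
  intro hdet
  obtain ⟨v, hv0, hv⟩ := Matrix.exists_mulVec_eq_zero_iff.2 hdet
  apply hv0
  have e1 : ∑ t, eval z (pderiv t (map (cc K) Φ)) * v (Sum.inl t) = 0 := by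
    have := congrFun hv (Sum.inr ())
    simp only [Matrix.mulVec, dotProduct, Matrix.of_apply, Pi.zero_apply,
      Fintype.sum_sum_type, tl_inr, map_gp, eval_pderiv_gp_inl, eval_pderiv_gp_inr, hPz,
      Finset.univ_unique, Finset.sum_singleton, map_zero, neg_zero, zero_mul, add_zero] at this
    exact this
  have e2 : ∀ t, ∑ x, eval z (pderiv x (pderiv t (map (cc K) Φ))) * v (Sum.inl x) -
      cc K (b t) * v (Sum.inr ()) = 0 := by
    intro t
    have := congrFun hv (Sum.inl t)
    simp only [Matrix.mulVec, dotProduct, Matrix.of_apply, Pi.zero_apply,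
      Fintype.sum_sum_type, tl_inl, map_gp, eval_pderiv_gp_inl, eval_pderiv_gp_inr, hPz,
      Finset.univ_unique, Finset.sum_singleton] at this
    rw [sub_eq_add_neg, ← neg_mul]
    simp only [pderiv_map] at this ⊢
    exact this
  have h1 : ∑ t, cc K (b t) * v (Sum.inl t) = 0 := by
    have h2 : ρ₀ * ∑ t, cc K (b t) * v (Sum.inl t) = 0 := by
      rw [← e1, Finset.mul_sum]
      refine Finset.sum_congr rfl fun t _ => ?_
      rw [hgrad]
      ring
    exact (mul_eq_zero.1 h2).resolve_left hρ
  have h2 : (fun t => v (Sum.inl t)) = 0 := by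
    refine hnd _ (v (Sum.inr ())) h1 fun t => ?_
    have h3 := e2 t
    have h4 : ∑ x, eval z (pderiv x (pderiv t (map (cc K) Φ))) * v (Sum.inl x) =
        ∑ x, v (Sum.inl x) * eval z (pderiv x (pderiv t (map (cc K) Φ))) :=
      Finset.sum_congr rfl fun x _ => mul_comm _ _
    rw [h4] at h3
    linear_combination h3
  obtain ⟨t, ht⟩ : ∃ t, cc K (b t) ≠ 0 := by
    by_contra hcon
    push Not at hcon
    exact hb (funext hcon)
  have h3 : v (Sum.inr ()) = 0 := by
    have h4 := e2 t
    have h5 : ∀ x, v (Sum.inl x) = 0 := fun x => congrFun h2 x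
    simp only [h5, mul_zero, Finset.sum_const_zero, zero_sub] at h4
    have h6 : cc K (b t) * v (Sum.inr ()) = 0 := by linear_combination -h4
    exact (mul_eq_zero.1 h6).resolve_left ht
  funext i
  rcases i with t | u
  · exact congrFun h2 t
  · exact h3

end

theorem tang_hensel {K : Type u} [Field K] {τ : Type v} [Fintype τ] [DecidableEq τ]
    (Φ : MvPolynomial τ (PowerSeries K)) (b : τ → PowerSeries K) (hb : (fun t => cc K (b t)) ≠ 0)
    (z : τ → K) (hz : Tang (map (cc K) Φ) (fun t => cc K (b t)) z) :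
    ∃ (q : τ → PowerSeries K) (ρ : PowerSeries K), (∀ t, cc K (q t) = z t) ∧ eval q Φ = 0 ∧
      ∀ t, eval q (pderiv t Φ) = ρ * b t := by
  obtain ⟨ρ, hρ, hgrad⟩ := hz.2.1
  obtain ⟨q, hq1, hq2⟩ := hensel (tlG Φ b) (Sum.elim z fun _ => ρ) (by
    intro i
    change eval (Sum.elim z fun _ => ρ) (map (cc K) (tlG Φ b i)) = 0
    rcases i with t | u
    · rw [tl_inl, map_gp, eval_gp, ← pderiv_map]
      have := hgrad t
      simp only [Sum.elim_inl, Sum.elim_inr]
      rw [this]
      ring
    · rw [tl_inr, map_gp, eval_gp]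
      simp only [Sum.elim_inl, map_zero, zero_mul, sub_zero]
      exact hz.1) (tl_jac Φ b hb z hz ρ)
  refine ⟨fun t => q (Sum.inl t), q (Sum.inr ()), fun t => hq2 (Sum.inl t), ?_, fun t => ?_⟩
  · have := hq1 (Sum.inr ())
    rw [tl_inr, eval_gp, zero_mul, sub_zero] at this
    exact this
  · have := hq1 (Sum.inl t)
    rw [tl_inl, eval_gp] at this
    linear_combination this

theorem tang_of_series {K : Type u} [Field K] {L : Type u} [Field L] [Algebra (PowerSeries K) L]
    (hinj : Function.Injective (algebraMap (PowerSeries K) L))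
    {τ : Type v} [Fintype τ] [DecidableEq τ]
    (Φ : MvPolynomial τ (PowerSeries K)) (b : τ → PowerSeries K) (hb : (fun t => cc K (b t)) ≠ 0)
    (q : τ → PowerSeries K) (ρ : PowerSeries K) (h0 : eval q Φ = 0)
    (h1 : ∀ t, eval q (pderiv t Φ) = ρ * b t)
    (hz : Tang (map (cc K) Φ) (fun t => cc K (b t)) (fun t => cc K (q t))) :
    Tang (map (algebraMap (PowerSeries K) L) Φ) (fun t => algebraMap (PowerSeries K) L (b t))
      (fun t => algebraMap (PowerSeries K) L (q t)) := by
  classical
  set ι := algebraMap (PowerSeries K) L with hι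
  have heval : ∀ f : MvPolynomial τ (PowerSeries K),
      eval (fun t => ι (q t)) (map ι f) = ι (eval q f) := by
    intro f
    rw [eval_map, eval₂_comp]
    rfl
  have hJ := tl_jac Φ b hb _ hz (cc K ρ)
  let P : τ ⊕ Unit → PowerSeries K := Sum.elim q fun _ => ρ
  have hdet : (Matrix.of fun i j => eval P (pderiv j (tlG Φ b i))).det ≠ 0 := by
    intro h
    apply hJ
    have h2 := congrArg (cc K) h
    rw [RingHom.map_det, map_zero] at h2
    rw [← h2]
    congr 1
    ext i j
    rw [Matrix.of_apply, RingHom.mapMatrix_apply, Matrix.map_apply, Matrix.of_apply, pderiv_map]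
    have h3 : (Sum.elim (fun t => cc K (q t)) fun _ => cc K ρ) = fun i => cc K (P i) := by
      funext i
      rcases i with t | u <;> rfl
    rw [h3]
    exact (constantCoeff_eval _ _).symm
  obtain ⟨z0, ⟨ρ₀, hρ₀, hg⟩, -⟩ := hz
  have hρ : ρ ≠ 0 := by
    rintro rfl
    apply hb
    funext t
    have h2 := hg t
    have h3 : eval (fun t => cc K (q t)) (pderiv t (map (cc K) Φ)) = 0 := by
      rw [pderiv_map]
      have h4 := constantCoeff_eval (pderiv t Φ) q
      rw [h1, zero_mul, map_zero] at h4
      exact h4.symm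
    rw [h3] at h2
    exact (mul_eq_zero.1 h2.symm).resolve_left hρ₀
  refine ⟨?_, ⟨ι ρ, ?_, ?_⟩, ?_⟩
  · rw [heval, h0, map_zero]
  · rwa [Ne, map_eq_zero_iff ι hinj]
  · intro t
    rw [pderiv_map, heval, h1, map_mul]
  · intro v c hv1 hv2
    have hdet' : (ι.mapMatrix (Matrix.of fun i j => eval P (pderiv j (tlG Φ b i)))).det ≠ 0 := by
      rw [← RingHom.map_det, Ne, map_eq_zero_iff ι hinj]
      exact hdet
    by_contra hv
    apply hdet'
    apply Matrix.exists_mulVec_eq_zero_iff.1
    refine ⟨Sum.elim v fun _ => c, ?_, ?_⟩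
    · intro h
      apply hv
      funext t
      exact congrFun h (Sum.inl t)
    · have hPq : (fun t => P (Sum.inl t)) = q := rfl
      funext i
      rcases i with t | u
      · simp only [Matrix.mulVec, dotProduct, RingHom.mapMatrix_apply, Matrix.map_apply,
          Matrix.of_apply, Fintype.sum_sum_type, Sum.elim_inl, Sum.elim_inr,
          Finset.univ_unique, Finset.sum_singleton, tl_inl, eval_pderiv_gp_inl,
          eval_pderiv_gp_inr, map_neg, Pi.zero_apply, hPq]
        have h5 := hv2 t
        have h6 : ∀ j, v j * eval (fun t => ι (q t)) (pderiv j (pderiv t (map ι Φ))) =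
            ι (eval q (pderiv j (pderiv t Φ))) * v j := by
          intro j
          rw [pderiv_map, pderiv_map, heval, mul_comm]
        rw [Finset.sum_congr rfl fun j _ => h6 j] at h5
        rw [h5]
        ring
      · simp only [Matrix.mulVec, dotProduct, RingHom.mapMatrix_apply, Matrix.map_apply,
          Matrix.of_apply, Fintype.sum_sum_type, Sum.elim_inl, Sum.elim_inr,
          Finset.univ_unique, Finset.sum_singleton, tl_inr, eval_pderiv_gp_inl,
          eval_pderiv_gp_inr, map_neg, Pi.zero_apply, hPq, map_zero, neg_zero, zero_mul,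
          add_zero]
        have h5 : ∀ t, ι (eval q (pderiv t Φ)) * v t = ι ρ * (ι (b t) * v t) := by
          intro t
          rw [h1, map_mul]
          ring
        rw [Finset.sum_congr rfl fun t _ => h5 t, ← Finset.mul_sum, hv1, mul_zero]

end Pool.Agent.ZTD
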