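import Pool.Agent.ZTD.Defs
import Pool.Agent.ZTD.TL
import Pool.Agent.ZTD.CV

/-!
# MP_9ce8c8_lc: zero tests for the permanent by determinants. One move step.
-/

set_option autoImplicit false

namespace Pool.Agent.ZTD

open MvPolynomial Finset
open Pool.Agent.H72.Dc (Tang class_bound class_lift det_border_subst tang_graph)

universe u v w

private theorem ms_eval_aeval {A : Type u} [CommRing A] {σ : Type v} {τ : Type w}
    (q : τ → A) (G : σ → MvPolynomial τ A) (h : MvPolynomial σ A) :
    eval q (aeval G h) = eval (fun i => eval q (G i)) h := by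
  have : (eval q).comp (aeval G : MvPolynomial σ A →ₐ[A] MvPolynomial τ A).toRingHom =
      eval (fun i => eval q (G i)) := by
    refine MvPolynomial.ringHom_ext (fun r => ?_) fun i => ?_
    · simp
    · simp
  exact congrArg (fun (φ : MvPolynomial σ A →+* A) => φ h) this

private theorem ms_eval_map {A : Type u} [CommRing A] {B : Type u} [CommRing B] (ι : A →+* B)
    {τ : Type w} (q : τ → A) (P : MvPolynomial τ A) :
    eval (fun t => ι (q t)) (map ι P) = ι (eval q P) := by
  have : (eval (fun t => ι (q t))).comp (map ι) = ι.comp (eval q) := by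
    refine MvPolynomial.ringHom_ext (fun r => ?_) fun i => ?_
    · simp
    · simp
  exact congrArg (fun (φ : MvPolynomial τ A →+* B) => φ P) this

private theorem ms_map_aeval {A : Type u} [CommRing A] {B : Type u} [CommRing B] (ι : A →+* B)
    {σ : Type v} {τ : Type w} (G : σ → MvPolynomial τ A) (h : MvPolynomial σ A) :
    map ι (aeval G h) = aeval (fun i => map ι (G i)) (map ι h) := by
  have : (map ι).comp (aeval G : MvPolynomial σ A →ₐ[A] MvPolynomial τ A).toRingHom =
      ((aeval (fun i => map ι (G i)) : MvPolynomial σ B →ₐ[B] MvPolynomial τ B).toRingHom).comp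
        (map ι) := by
    refine MvPolynomial.ringHom_ext (fun r => ?_) fun i => ?_
    · simp
    · simp
  exact congrArg (fun (φ : MvPolynomial σ A →+* MvPolynomial τ B) => φ h) this

/-- an algebraically closed field that contains the power series over a field -/
private theorem ms_closure (F : Type u) [Field F] [CharZero F] :
    ∃ (F' : Type u) (_ : Field F') (_ : Algebra (PowerSeries F) F'),
      Function.Injective (algebraMap (PowerSeries F) F') ∧ IsAlgClosed F' ∧ CharZero F' := by
  let A := AlgebraicClosure (FractionRing (PowerSeries F))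
  let φ : PowerSeries F →+* A := (algebraMap (FractionRing (PowerSeries F)) A).comp
    (algebraMap (PowerSeries F) (FractionRing (PowerSeries F)))
  have hφ : Function.Injective φ :=
    (algebraMap (FractionRing (PowerSeries F)) A).injective.comp (IsFractionRing.injective _ _)
  refine ⟨A, inferInstance, φ.toAlgebra, hφ, inferInstance, ?_⟩
  exact charZero_of_injective_ringHom (f := φ.comp (PowerSeries.C (R := F)))
    (hφ.comp PowerSeries.C_injective)

theorem move_step {F : Type u} [Field F] [IsAlgClosed F] [CharZero F]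
    {σ : Type v} [Fintype σ] [DecidableEq σ] {τ : Type v} [Fintype τ] [DecidableEq τ]
    (f Δ : MvPolynomial σ F) (hR : Red f Δ) (E : σ → MvPolynomial τ F)
    (b : τ → F) (hb : b ≠ 0) (S : Finset (τ → F)) (hS : ∀ z ∈ S, Tang (aeval E f) b z)
    (z₀ : τ → F) (hz₀ : z₀ ∈ S) :
    ∃ (F' : Type u) (_ : Field F') (_ : IsAlgClosed F') (_ : CharZero F') (χ : F →+* F')
      (c : σ → F') (b' : τ → F') (g : (τ → F) → τ → F'), b' ≠ 0 ∧ Set.InjOn g S ∧
      (∀ z ∈ S, Tang (aeval (fun i => map χ (E i) + C (c i)) (map χ f)) b' (g z)) ∧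
      eval (fun i => eval (g z₀) (map χ (E i) + C (c i))) (map χ Δ) ≠ 0 ∧
      ∀ z ∈ S, eval (fun i => eval z (E i)) Δ ≠ 0 →
        eval (fun i => eval (g z) (map χ (E i) + C (c i))) (map χ Δ) ≠ 0 := by
  classical
  set x : σ → F := fun i => eval z₀ (E i) with hx
  have hx0 : eval x f = 0 := by
    rw [hx, ← ms_eval_aeval]
    exact (hS z₀ hz₀).1
  obtain ⟨i₀, hi₀⟩ := exists_deriv f E b hb z₀ (hS z₀ hz₀)
  obtain ⟨Z, hZ1, hZ2, hZ3⟩ := curve f Δ hR x hx0 i₀ hi₀
  set Et : σ → MvPolynomial τ (PowerSeries F) :=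
    fun i => map (co F) (E i) + C (Z i - co F (x i)) with hEt
  set Φ : MvPolynomial τ (PowerSeries F) := aeval Et (map (co F) f) with hΦ
  have hcc : (cc F).comp (co F) = RingHom.id F := by
    ext a; simp
  have hmapE : ∀ i, map (cc F) (Et i) = E i := by
    intro i
    simp only [hEt, map_add, map_C, map_sub, hZ1, MvPolynomial.map_map, hcc, MvPolynomial.map_id]
    simp
  have hmapΦ : map (cc F) Φ = aeval E f := by
    rw [hΦ, ms_map_aeval, MvPolynomial.map_map, hcc, MvPolynomial.map_id]
    congr 1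
    congr 1
    funext i
    exact hmapE i
  have hevE : ∀ (q : τ → PowerSeries F) (i : σ), cc F (eval q (Et i)) =
      eval (fun t => cc F (q t)) (E i) := by
    intro q i
    rw [← ms_eval_map (cc F) q (Et i), hmapE]
  have hevq0 : ∀ i, eval (fun t => co F (z₀ t)) (Et i) = Z i := by
    intro i
    simp only [hEt, map_add, eval_C]
    rw [ms_eval_map]
    simp [hx]
  obtain ⟨h00, ⟨ρ₀, hρ₀, hgrad₀⟩, -⟩ := hS z₀ hz₀
  set q₀ : τ → PowerSeries F := fun t => co F (z₀ t) with hq₀
  set bs : τ → PowerSeries F := fun t => eval q₀ (pderiv t Φ) * co F ρ₀⁻¹ with hbs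
  have hccq₀ : (fun t => cc F (q₀ t)) = z₀ := by
    funext t; simp [hq₀]
  have hccbs : (fun t => cc F (bs t)) = b := by
    funext t
    simp only [hbs, map_mul]
    rw [← ms_eval_map (cc F) q₀, hccq₀, ← pderiv_map, hmapΦ, hgrad₀ t]
    simp only [PowerSeries.constantCoeff_C]
    field_simp
  have hbs0 : (fun t => cc F (bs t)) ≠ 0 := by rw [hccbs]; exact hb
  have hq₀Φ : eval q₀ Φ = 0 := by
    rw [hΦ, ms_eval_aeval]
    simp only [hevq0]
    exact hZ2
  have hlift : ∀ z : τ → F, ∃ (q : τ → PowerSeries F) (ρ : PowerSeries F), z ∈ S →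
      ((∀ t, cc F (q t) = z t) ∧ eval q Φ = 0 ∧ (∀ t, eval q (pderiv t Φ) = ρ * bs t) ∧
        (z = z₀ → q = q₀)) := by
    intro z
    by_cases hz : z ∈ S
    · by_cases hzz : z = z₀
      · refine ⟨q₀, co F ρ₀, fun _ => ⟨?_, hq₀Φ, ?_, fun _ => rfl⟩⟩
        · intro t
          rw [hzz]
          exact congrFun hccq₀ t
        · intro t
          simp only [hbs]
          rw [mul_comm (co F ρ₀), mul_assoc, ← map_mul, inv_mul_cancel₀ hρ₀, map_one, mul_one]
      · obtain ⟨q, ρ, h1, h2, h3⟩ := tang_hensel Φ bs hbs0 z (by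
          rw [hmapΦ, hccbs]
          exact hS z hz)
        exact ⟨q, ρ, fun _ => ⟨h1, h2, h3, fun h => absurd h hzz⟩⟩
    · exact ⟨0, 0, fun h => absurd h hz⟩
  choose q ρ hq using hlift
  obtain ⟨F', iF, iA, hinj, hac, hch⟩ := ms_closure F
  set ι : PowerSeries F →+* F' := algebraMap (PowerSeries F) F' with hι
  have hmapι : ∀ i, map (ι.comp (co F)) (E i) + C (ι (Z i - co F (x i))) = map ι (Et i) := by
    intro i
    simp only [hEt, map_add, map_C, MvPolynomial.map_map]
  have hΦι : aeval (fun i => map (ι.comp (co F)) (E i) + C (ι (Z i - co F (x i))))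
      (map (ι.comp (co F)) f) = map ι Φ := by
    rw [hΦ, ms_map_aeval, MvPolynomial.map_map]
    congr 1
    congr 1
    funext i
    exact hmapι i
  have hval : ∀ (q' : τ → PowerSeries F), eval (fun i => eval (fun t => ι (q' t))
      (map (ι.comp (co F)) (E i) + C (ι (Z i - co F (x i))))) (map (ι.comp (co F)) Δ) =
      ι (eval (fun i => eval q' (Et i)) (map (co F) Δ)) := by
    intro q'
    simp only [hmapι, ms_eval_map]
    rw [← ms_eval_map, MvPolynomial.map_map]
  refine ⟨F', iF, hac, hch, ι.comp (co F), fun i => ι (Z i - co F (x i)), fun t => ι (bs t),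
    fun z t => ι (q z t), ?_, ?_, ?_, ?_, ?_⟩
  · intro h
    apply hbs0
    funext t
    have h1 := congrFun h t
    simp only [Pi.zero_apply] at h1
    rw [map_eq_zero_iff _ hinj] at h1
    rw [h1]; simp
  · intro z hz z' hz' h
    funext t
    have h1 := congrFun h t
    simp only at h1
    have h2 := hinj h1
    rw [← (hq z hz).1 t, ← (hq z' hz').1 t, h2]
  · intro z hz
    rw [hΦι]
    obtain ⟨h1, h2, h3, -⟩ := hq z hz
    refine tang_of_series hinj Φ bs hbs0 (q z) (ρ z) h2 h3 ?_
    rw [hmapΦ, hccbs, show (fun t => cc F (q z t)) = z from funext h1]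
    exact hS z hz
  · rw [hval, Ne, map_eq_zero_iff _ hinj, (hq z₀ hz₀).2.2.2 rfl]
    simp only [hevq0]
    exact hZ3
  · intro z hz hne
    rw [hval, Ne, map_eq_zero_iff _ hinj]
    intro h0
    apply hne
    have h1 : cc F (eval (fun i => eval (q z) (Et i)) (map (co F) Δ)) = 0 := by
      rw [h0, map_zero]
    rw [← ms_eval_map, MvPolynomial.map_map, hcc, MvPolynomial.map_id] at h1
    rw [← h1]
    congr 1
    congr 1
    funext i
    rw [hevE, show (fun t => cc F (q z t)) = z from funext (hq z hz).1]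

end Pool.Agent.ZTD
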