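import Pool.Agent.ZTD.Defs
import Pool.Agent.ZTD.MS
import Pool.Agent.ZTD.RD

/-!
# MP_9ce8c8_lc: zero tests for the permanent by determinants. Module MV
-/

set_option autoImplicit false

namespace Pool.Agent.ZTD

open MvPolynomial Finset
open scoped Nat
open Pool.Agent.H10.PerSL (perPoly hensel constantCoeff_eval)
open Pool.Agent.H72.Dc (Tang class_bound class_lift det_border_subst tang_graph)
open Pool.Agent.H61.BD (DetLE BorderDetLE)
open Pool.Agent.MUL (per_prime per_degreeOf)

universe u v w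

private theorem mv_tdeg_map {R : Type u} {S : Type w} [CommRing R] [CommRing S]
    {τ : Type v} (χ : R →+* S) (P : MvPolynomial τ R) :
    (map χ P).totalDegree ≤ P.totalDegree := by
  rw [totalDegree, totalDegree]
  exact Finset.sup_mono (support_map_subset χ P)

private theorem mv_aux {σ : Type v} [Fintype σ] [DecidableEq σ] {τ : Type v} [Fintype τ]
    [DecidableEq τ] (k : ℕ) : ∀ (F : Type u) [Field F] [IsAlgClosed F] [CharZero F]
    (f Δ : MvPolynomial σ F) (_ : Red f Δ) (E : σ → MvPolynomial τ F)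
    (_ : ∀ i, (E i).totalDegree ≤ 1)
    (b : τ → F) (_ : b ≠ 0) (S : Finset (τ → F)) (_ : ∀ z ∈ S, Tang (aeval E f) b z)
    (B : Finset (τ → F)) (_ : ∀ z ∈ S, eval (fun i => eval z (E i)) Δ = 0 → z ∈ B)
    (_ : B.card ≤ k),
    ∃ (F' : Type u) (_ : Field F') (_ : IsAlgClosed F') (_ : CharZero F') (χ : F →+* F')
      (E' : σ → MvPolynomial τ F') (b' : τ → F') (S' : Finset (τ → F')), b' ≠ 0 ∧
      (∀ i, (E' i).totalDegree ≤ 1) ∧ S'.card = S.card ∧
      ∀ z ∈ S', Tang (aeval E' (map χ f)) b' z ∧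
        eval (fun i => eval z (E' i)) (map χ Δ) ≠ 0 := by
  classical
  induction k with
  | zero =>
    intro F _ _ _ f Δ hR E hE b hb S hS B hB hk
    have hB0 : B = ∅ := Finset.card_eq_zero.1 (Nat.le_zero.1 hk)
    refine ⟨F, inferInstance, inferInstance, inferInstance, RingHom.id F, E, b, S, hb, hE, rfl,
      ?_⟩
    intro z hz
    rw [map_id, map_id]
    refine ⟨hS z hz, ?_⟩
    intro h
    have := hB z hz h
    rw [hB0] at this
    exact absurd this (Finset.notMem_empty z)
  | succ k ih =>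
    intro F _ _ _ f Δ hR E hE b hb S hS B hB hk
    by_cases hbad : ∃ z₀ ∈ S, eval (fun i => eval z₀ (E i)) Δ = 0
    · obtain ⟨z₀, hz₀, hz0⟩ := hbad
      obtain ⟨F₁, _, _, _, χ₁, c, b₁, g, hb₁, hg, hT, h0, hgood⟩ :=
        move_step f Δ hR E b hb S hS z₀ hz₀
      have hE₁ : ∀ i, (map χ₁ (E i) + C (c i)).totalDegree ≤ 1 := by
        intro i
        refine (totalDegree_add _ _).trans (max_le ((mv_tdeg_map χ₁ (E i)).trans (hE i)) ?_)
        rw [totalDegree_C]
        exact Nat.zero_le _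
      have hS₁ : ∀ z ∈ S.image g,
          Tang (aeval (fun i => map χ₁ (E i) + C (c i)) (map χ₁ f)) b₁ z := by
        intro z hz
        obtain ⟨y, hy, rfl⟩ := Finset.mem_image.1 hz
        exact hT y hy
      have hB₁ : ∀ z ∈ S.image g,
          eval (fun i => eval z (map χ₁ (E i) + C (c i))) (map χ₁ Δ) = 0 →
          z ∈ (B.erase z₀).image g := by
        intro z hz hz1
        obtain ⟨y, hy, rfl⟩ := Finset.mem_image.1 hz
        refine Finset.mem_image.2 ⟨y, Finset.mem_erase.2 ⟨?_, ?_⟩, rfl⟩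
        · rintro rfl
          exact h0 hz1
        · refine hB y hy ?_
          by_contra hne
          exact hgood y hy hne hz1
      have hk₁ : ((B.erase z₀).image g).card ≤ k := by
        refine Finset.card_image_le.trans ?_
        rw [Finset.card_erase_of_mem (hB z₀ hz₀ hz0)]
        omega
      obtain ⟨F₂, i₁, i₂, i₃, χ₂, E₂, b₂, S₂, hb₂, hE₂, hc₂, hS₂⟩ :=
        ih F₁ (map χ₁ f) (map χ₁ Δ) (hR.map χ₁) (fun i => map χ₁ (E i) + C (c i)) hE₁ b₁ hb₁
          (S.image g) hS₁ ((B.erase z₀).image g) hB₁ hk₁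
      refine ⟨F₂, i₁, i₂, i₃, χ₂.comp χ₁, E₂, b₂, S₂, hb₂, hE₂, ?_, ?_⟩
      · rw [hc₂, Finset.card_image_of_injOn hg]
      · intro z hz
        have := hS₂ z hz
        rw [MvPolynomial.map_map, MvPolynomial.map_map] at this
        exact this
    · refine ⟨F, inferInstance, inferInstance, inferInstance, RingHom.id F, E, b, S, hb, hE, rfl,
        ?_⟩
      intro z hz
      rw [map_id, map_id]
      exact ⟨hS z hz, fun h => hbad ⟨z, hz, h⟩⟩

theorem move {F : Type u} [Field F] [IsAlgClosed F] [CharZero F]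
    {σ : Type v} [Fintype σ] [DecidableEq σ] {τ : Type v} [Fintype τ] [DecidableEq τ]
    (f Δ : MvPolynomial σ F) (hR : Red f Δ) (E : σ → MvPolynomial τ F)
    (hE : ∀ i, (E i).totalDegree ≤ 1)
    (b : τ → F) (hb : b ≠ 0) (S : Finset (τ → F)) (hS : ∀ z ∈ S, Tang (aeval E f) b z) :
    ∃ (F' : Type u) (_ : Field F') (_ : IsAlgClosed F') (_ : CharZero F') (χ : F →+* F')
      (E' : σ → MvPolynomial τ F') (b' : τ → F') (S' : Finset (τ → F')), b' ≠ 0 ∧
      (∀ i, (E' i).totalDegree ≤ 1) ∧ S'.card = S.card ∧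
      ∀ z ∈ S', Tang (aeval E' (map χ f)) b' z ∧
        eval (fun i => eval z (E' i)) (map χ Δ) ≠ 0 :=
  mv_aux S.card F f Δ hR E hE b hb S hS S (fun _ hz _ => hz) le_rfl

end Pool.Agent.ZTD
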