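import Pool.Agent.ZTD.Defs

/-!
# MP_9ce8c8_lc: zero tests for the permanent by determinants. Rank tests.
-/

set_option autoImplicit false

namespace Pool.Agent.ZTD

open MvPolynomial Finset
open Pool.Agent.H61.BD (DetLE BorderDetLE)

universe u v w

private theorem rk_rows {k : Type u} [Field k] {m n : ℕ} (A : Matrix (Fin m) (Fin n) k) :
    ∃ f : Fin A.rank → Fin m, LinearIndependent k (A.submatrix f id).row := by
  obtain ⟨κ, a, ha, hspan, hli⟩ := exists_linearIndependent' k A.row
  have hfin : Finite κ := Finite.of_injective a ha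
  have := Fintype.ofFinite κ
  have hcard : Fintype.card κ = A.rank := by
    rw [A.rank_eq_finrank_span_row, ← hspan]
    exact linearIndependent_iff_card_eq_finrank_span.mp hli
  let e : Fin A.rank ≃ κ := (Fintype.equivFinOfCardEq hcard).symm
  exact ⟨fun i => a (e i), hli.comp e e.injective⟩

theorem rank_minor {k : Type u} [Field k] {m n : ℕ} (A : Matrix (Fin m) (Fin n) k) :
    ∃ (f : Fin A.rank → Fin m) (g : Fin A.rank → Fin n), (A.submatrix f g).det ≠ 0 := by
  obtain ⟨f, hf⟩ := rk_rows A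
  have hB : (A.submatrix f id).rank = A.rank := by
    rw [hf.rank_matrix, Fintype.card_fin]
  obtain ⟨g, hg⟩ := rk_rows (A.submatrix f id).transpose
  have hr : (A.submatrix f id).transpose.rank = A.rank := by
    rw [Matrix.rank_transpose, hB]
  let c : Fin A.rank ≃ Fin (A.submatrix f id).transpose.rank := finCongr hr.symm
  refine ⟨f, fun i => g (c i), ?_⟩
  have h1 : LinearIndependent k ((A.submatrix f fun i => g (c i)).transpose).row :=
    hg.comp c c.injective
  rw [Matrix.linearIndependent_rows_iff_isUnit, Matrix.isUnit_iff_isUnit_det,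
    Matrix.det_transpose] at h1
  exact h1.ne_zero

/-- a nonzero minor of a polynomial matrix whose nonvanishing fixes the rank -/
private theorem rk_generic {k : Type u} [Field k] {σ : Type v} {r c : ℕ}
    (M : Matrix (Fin r) (Fin c) (MvPolynomial σ k)) :
    ∃ (ρ : ℕ) (f : Fin ρ → Fin r) (g : Fin ρ → Fin c), ρ ≤ min r c ∧
      (M.submatrix f g).det ≠ 0 ∧ (∀ x : σ → k, (M.map (eval x)).rank ≤ ρ) ∧
      ∀ x : σ → k, eval x (M.submatrix f g).det ≠ 0 → ρ ≤ (M.map (eval x)).rank := by
  classical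
  let Q : ℕ → Prop := fun ρ => ∃ (f : Fin ρ → Fin r) (g : Fin ρ → Fin c),
    (M.submatrix f g).det ≠ 0
  have hbound : ∀ ρ, Q ρ → ρ ≤ min r c := by
    rintro ρ ⟨f, g, h⟩
    have hf : Function.Injective f := by
      intro a b hab
      by_contra hne
      exact h (Matrix.det_zero_of_row_eq hne (by ext j; simp [hab]))
    have hg : Function.Injective g := by
      intro a b hab
      by_contra hne
      exact h (Matrix.det_zero_of_column_eq hne (by intro j; simp [hab]))
    have h1 := Fintype.card_le_of_injective f hf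
    have h2 := Fintype.card_le_of_injective g hg
    simp only [Fintype.card_fin] at h1 h2
    exact le_min h1 h2
  have hQ0 : Q 0 := ⟨Fin.elim0, Fin.elim0, by rw [Matrix.det_fin_zero]; exact one_ne_zero⟩
  obtain ⟨ρ, hρ, hmax⟩ : ∃ ρ, Q ρ ∧ ∀ ρ', Q ρ' → ρ' ≤ ρ := by
    refine ⟨Nat.findGreatest Q (min r c), Nat.findGreatest_spec (Nat.zero_le _) hQ0, ?_⟩
    intro ρ' h
    exact Nat.le_findGreatest (hbound ρ' h) h
  obtain ⟨f, g, hfg⟩ := hρ
  refine ⟨ρ, f, g, hbound ρ ⟨f, g, hfg⟩, hfg, fun x => ?_, fun x hx => ?_⟩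
  · obtain ⟨f', g', h'⟩ := rank_minor (M.map (eval x))
    apply hmax
    refine ⟨f', g', fun h0 => h' ?_⟩
    have h1 := congrArg (eval x) h0
    rw [map_zero, RingHom.map_det] at h1
    exact h1
  · have h1 : (((M.map (eval x)).submatrix f g)).det ≠ 0 := by
      rw [RingHom.map_det] at hx
      exact hx
    have h2 := Matrix.rank_of_det_ne_zero h1
    rw [Fintype.card_fin] at h2
    rw [← h2]
    exact Matrix.rank_submatrix_le _ _ _

theorem rank_test {k : Type u} [Field k] {σ : Type v} (f : MvPolynomial σ k)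
    (hf : Prime f) (hdvd : ∀ U : MvPolynomial σ k, (∀ x, eval x f = 0 → eval x U = 0) → f ∣ U)
    {ι : Type w} [Fintype ι] (r c : ι → ℕ) (s : ℕ) (hs : ∀ i, min (r i) (c i) ≤ s)
    (M : ∀ i, Matrix (Fin (r i)) (Fin (c i)) (MvPolynomial σ k))
    (hM : ∀ i a b, (M i a b).totalDegree ≤ 1)
    (h : ∀ x : σ → k, eval x f = 0 →
      ∃ i, ∃ y : σ → k, ((M i).map (eval x)).rank < ((M i).map (eval y)).rank) :
    ∃ (P : MvPolynomial σ k) (s' : ℕ), s' ≤ s ∧ P ≠ 0 ∧ f ∣ P ∧ DetLE P s' := by
  classical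
  choose ρ a b hρ hne hmax hrank using fun i => rk_generic (M i)
  set D : ι → MvPolynomial σ k := fun i => ((M i).submatrix (a i) (b i)).det with hD
  have hdiv : f ∣ ∏ i, D i := by
    apply hdvd
    intro x hx
    obtain ⟨i, y, hy⟩ := h x hx
    rw [map_prod]
    refine Finset.prod_eq_zero (Finset.mem_univ i) ?_
    by_contra hne
    have h1 := hrank i x hne
    have h2 := hmax i y
    omega
  obtain ⟨i, -, hi⟩ := hf.exists_mem_finset_dvd hdiv
  exact ⟨D i, ρ i, (hρ i).trans (hs i), hne i, hi, (M i).submatrix (a i) (b i),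
    fun p q => hM i _ _, rfl⟩

end Pool.Agent.ZTD
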