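import Pool.Agent.ZTD.FN
import Pool.Agent.ZTD.GR
import Pool.Agent.ZTD.RK

/-!
# MP_9ce8c8_lc: zero tests for the permanent by determinants. Definitions for the result.
-/

set_option autoImplicit false

namespace Pool.Agent.ZTD

open MvPolynomial Finset
open Pool.Agent.H10.PerSL (perPoly)
open Pool.Agent.H61.BD (DetLE BorderDetLE)
open Pool.Agent.MUL (per_prime per_degreeOf gr gr_prime)

universe u v w

/-- Some nonzero polynomial that vanishes at all zeros of `f` over `k` is, exactly or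
approximatively, the determinant of an `s × s` matrix of polynomials of degree at most one. -/
def DetTest {k : Type u} [Field k] {σ : Type v} (f : MvPolynomial σ k) (s : ℕ) : Prop :=
  ∃ P : MvPolynomial σ k, P ≠ 0 ∧ (∀ x, eval x f = 0 → eval x P = 0) ∧
    (DetLE P s ∨ BorderDetLE P s)

/-- There are finitely many matrices of polynomials of degree at most one, each with at most `s`
rows or at most `s` columns, such that at every zero of `f` over `k` at least one of them has a
rank smaller than its largest rank. -/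
def RankTest {k : Type u} [Field k] {σ : Type v} (f : MvPolynomial σ k) (s : ℕ) : Prop :=
  ∃ (m : ℕ) (r c : Fin m → ℕ) (M : ∀ i, Matrix (Fin (r i)) (Fin (c i)) (MvPolynomial σ k)),
    (∀ i, min (r i) (c i) ≤ s) ∧ (∀ i a b, (M i a b).totalDegree ≤ 1) ∧
    ∀ x : σ → k, eval x f = 0 →
      ∃ i, ∃ y : σ → k, ((M i).map (eval x)).rank < ((M i).map (eval y)).rank

theorem tests {n : ℕ} (hn : 2 ≤ n) (k : Type u) [Field k] [CharZero k] (s : ℕ)
    (h : (DetTest (perPoly n k) s ∨ RankTest (perPoly n k) s) ∨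
      (DetTest (gr (perPoly n k)) s ∨ RankTest (gr (perPoly n k)) s)) :
    (n : ℝ) ^ 3 / (10 ^ 7 * (Real.logb 2 n) ^ 3) ≤ s := by
  have hp := per_prime (show 0 < n by omega) k
  have hq := gr_prime (perPoly n k)
  have hdvd1 : ∀ U : MvPolynomial (Fin n × Fin n) k,
      (∀ x, eval x (perPoly n k) = 0 → eval x U = 0) → perPoly n k ∣ U := fun U hU =>
    dvd_gen _ hp (⟨0, by omega⟩, ⟨0, by omega⟩) (per_degreeOf k _) U hU
  have hdvd2 : ∀ U : MvPolynomial (Option (Fin n × Fin n)) k,
      (∀ x, eval x (gr (perPoly n k)) = 0 → eval x U = 0) → gr (perPoly n k) ∣ U := fun U hU =>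
    dvd_gen _ hq none (gr_degreeOf k none) U hU
  rcases h with (⟨P, h0, hz, hs⟩ | ⟨m, r, c, M, hs, hM, ht⟩) |
    (⟨P, h0, hz, hs⟩ | ⟨m, r, c, M, hs, hM, ht⟩)
  · exact (final hn k s).1 P h0 (hdvd1 P hz) (hs.elim Pool.Agent.H72.Dc.DetLE.toBorder id)
  · obtain ⟨P, s', hs', h0, hd, hP⟩ := rank_test (perPoly n k) hp hdvd1 r c s hs M hM ht
    refine ((final hn k s').1 P h0 hd (Pool.Agent.H72.Dc.DetLE.toBorder hP)).trans ?_
    exact_mod_cast hs'
  · exact (final hn k s).2 P h0 (hdvd2 P hz) (hs.elim Pool.Agent.H72.Dc.DetLE.toBorder id)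
  · obtain ⟨P, s', hs', h0, hd, hP⟩ := rank_test (gr (perPoly n k)) hq hdvd2 r c s hs M hM ht
    refine ((final hn k s').2 P h0 hd (Pool.Agent.H72.Dc.DetLE.toBorder hP)).trans ?_
    exact_mod_cast hs'

end Pool.Agent.ZTD
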